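import Mathlib

set_option autoImplicit false

/-!
# Definitions: Riesz energy, equilibrium measures, the annulus, the explicit measure
-/

namespace Pool.Agent.Lib.RieszAnnulus

open MeasureTheory Set
open scoped ENNReal Real

/-- The Riesz kernel `K_s(x) = 1 / (s |x|^s)` for `s > 0`; its value at `0` is `∞`. -/
noncomputable def rieszKernel {d : ℕ} (s : ℝ) (x : EuclideanSpace ℝ (Fin d)) : ℝ≥0∞ :=
  (ENNReal.ofReal s * ‖x‖ₑ ^ s)⁻¹

/-- The Riesz energy `I_s(μ) = ∬ K_s(x - y) dμ(x) dμ(y)` (for `s > 0`). -/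
noncomputable def rieszEnergy {d : ℕ} (s : ℝ) (μ : Measure (EuclideanSpace ℝ (Fin d))) : ℝ≥0∞ :=
  ∫⁻ x, ∫⁻ y, rieszKernel s (x - y) ∂μ ∂μ

/-- The closed annulus `{x | r ≤ |x| ≤ R}`. -/
def annulus (d : ℕ) (r R : ℝ) : Set (EuclideanSpace ℝ (Fin d)) := {x | r ≤ ‖x‖ ∧ ‖x‖ ≤ R}

/-- `μ` is an equilibrium measure of `I_s` on the closed set `K`: a probability measure carried
by `K` with the least Riesz energy among all probability measures carried by `K`. -/
structure IsEquilibrium {d : ℕ} (s : ℝ) (K : Set (EuclideanSpace ℝ (Fin d)))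
    (μ : Measure (EuclideanSpace ℝ (Fin d))) : Prop where
  prob : IsProbabilityMeasure μ
  carried : μ Kᶜ = 0
  min : ∀ ν : Measure (EuclideanSpace ℝ (Fin d)), IsProbabilityMeasure ν → ν Kᶜ = 0 →
    rieszEnergy s μ ≤ rieszEnergy s ν

/-- Complete elliptic integral of the first kind, modulus `k`. -/
noncomputable def ellK (k : ℝ) : ℝ := ∫ u in (0 : ℝ)..π / 2, 1 / √(1 - k ^ 2 * Real.sin u ^ 2)

/-- Complete elliptic integral of the second kind, modulus `k`. -/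
noncomputable def ellE (k : ℝ) : ℝ := ∫ u in (0 : ℝ)..π / 2, √(1 - k ^ 2 * Real.sin u ^ 2)

/-- The parameter `λ = R² (1 - E(r/R) / K(r/R))`. -/
noncomputable def lam (r R : ℝ) : ℝ := R ^ 2 * (1 - ellE (r / R) / ellK (r / R))

/-- The explicit density
`(|x|² - λ) / (π² (R² + r² - 2λ) |x| √((R² - |x|²)(|x|² - r²)))` on `r < |x| < R`. -/
noncomputable def dens (r R : ℝ) (x : EuclideanSpace ℝ (Fin 3)) : ℝ :=
  {x : EuclideanSpace ℝ (Fin 3) | r < ‖x‖ ∧ ‖x‖ < R}.indicator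
    (fun x => (‖x‖ ^ 2 - lam r R) /
      (π ^ 2 * (R ^ 2 + r ^ 2 - 2 * lam r R) * ‖x‖ *
        √((R ^ 2 - ‖x‖ ^ 2) * (‖x‖ ^ 2 - r ^ 2)))) x

/-- The explicit measure. -/
noncomputable def muStar (r R : ℝ) : Measure (EuclideanSpace ℝ (Fin 3)) :=
  volume.withDensity fun x => ENNReal.ofReal (dens r R x)

end Pool.Agent.Lib.RieszAnnulus
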