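import Mathlib
import Pool.Agent.Lib.RieszAnnulus.Defs

set_option autoImplicit false

/-!
# Strict positive definiteness of the kernel `|x - y|^{-2}`
-/

namespace Pool.Agent.Lib.RieszAnnulus

open MeasureTheory Set Filter Topology
open scoped ENNReal Real RealInnerProductSpace

section
variable {d : ℕ}

lemma inv_eq_lintegral_exp {s : ℝ} (hs : 0 ≤ s) :
    (ENNReal.ofReal s)⁻¹ = ∫⁻ t in Ioi (0 : ℝ), ENNReal.ofReal (Real.exp (-t * s)) := by
  rcases hs.eq_or_lt with h | h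
  · rw [← h]
    simp
  · rw [← ofReal_integral_eq_lintegral_ofReal]
    · have e : ∀ t : ℝ, Real.exp (-t * s) = Real.exp ((-s) * t) := fun t => by congr 1; ring
      simp_rw [e]
      rw [integral_exp_mul_Ioi (by linarith) 0]
      simp only [mul_zero, Real.exp_zero]
      rw [← ENNReal.ofReal_inv_of_pos h]
      congr 1
      field_simp
    · have e : ∀ t : ℝ, Real.exp (-t * s) = Real.exp ((-s) * t) := fun t => by congr 1; ring
      simp_rw [e]
      exact integrableOn_exp_mul_Ioi (by linarith) 0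
    · exact Eventually.of_forall fun t => (Real.exp_pos _).le

/-- total mass of a Gaussian -/
noncomputable def gm (d : ℕ) (c : ℝ) : ℝ≥0∞ :=
  ∫⁻ z : EuclideanSpace ℝ (Fin d), ENNReal.ofReal (Real.exp (-c * ‖z‖ ^ 2))

lemma gauss_integrable {c : ℝ} (hc : 0 < c) : Integrable fun z : (EuclideanSpace ℝ (Fin d)) => Real.exp (-c * ‖z‖ ^ 2) := by
  have h := GaussianFourier.integrable_cexp_neg_mul_sq_norm_add (V := (EuclideanSpace ℝ (Fin d))) (b := (c : ℂ))
    (by simpa using hc) 0 0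
  have h2 := h.re
  refine h2.congr (Eventually.of_forall fun z => ?_)
  have : (-(c : ℂ) * (‖z‖ : ℂ) ^ 2 + 0 * ((⟪(0 : (EuclideanSpace ℝ (Fin d))), z⟫ : ℝ) : ℂ)) =
      ((-c * ‖z‖ ^ 2 : ℝ) : ℂ) := by push_cast; ring
  change (Complex.exp (-(c : ℂ) * (‖z‖ : ℂ) ^ 2 + 0 * ((⟪(0 : (EuclideanSpace ℝ (Fin d))), z⟫ : ℝ) : ℂ))).re = _
  rw [this, ← Complex.ofReal_exp, Complex.ofReal_re]

lemma gm_lt_top {c : ℝ} (hc : 0 < c) : gm d c < ⊤ := by
  unfold gm
  have h := (gauss_integrable (d := d) hc).lintegral_lt_top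
  exact h

lemma gm_pos {c : ℝ} : 0 < gm d c := by
  unfold gm
  rw [lintegral_pos_iff_support (by fun_prop)]
  have : (Function.support fun z : (EuclideanSpace ℝ (Fin d)) => ENNReal.ofReal (Real.exp (-c * ‖z‖ ^ 2))) = univ := by
    ext z
    simp [Real.exp_pos]
  rw [this]
  exact isOpen_univ.measure_pos _ univ_nonempty

lemma gauss_conv {t : ℝ} (ht : 0 < t) (x y : (EuclideanSpace ℝ (Fin d))) :
    ENNReal.ofReal (Real.exp (-t * ‖x - y‖ ^ 2)) = (gm d (4 * t))⁻¹ *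
      ∫⁻ z : (EuclideanSpace ℝ (Fin d)), ENNReal.ofReal (Real.exp (-(2 * t) * ‖x - z‖ ^ 2)) *
        ENNReal.ofReal (Real.exp (-(2 * t) * ‖y - z‖ ^ 2)) := by
  set m : (EuclideanSpace ℝ (Fin d)) := (1 / 2 : ℝ) • (x + y) with hm
  have e : ∀ z : (EuclideanSpace ℝ (Fin d)), ENNReal.ofReal (Real.exp (-(2 * t) * ‖x - z‖ ^ 2)) *
        ENNReal.ofReal (Real.exp (-(2 * t) * ‖y - z‖ ^ 2)) =
      ENNReal.ofReal (Real.exp (-t * ‖x - y‖ ^ 2)) *
        ENNReal.ofReal (Real.exp (-(4 * t) * ‖z - m‖ ^ 2)) := by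
    intro z
    rw [← ENNReal.ofReal_mul (Real.exp_pos _).le, ← ENNReal.ofReal_mul (Real.exp_pos _).le,
      ← Real.exp_add, ← Real.exp_add]
    congr 2
    have h1 : x - z = (1 / 2 : ℝ) • (x - y) - (z - m) := by rw [hm]; module
    have h2 : y - z = -((1 / 2 : ℝ) • (x - y)) - (z - m) := by rw [hm]; module
    have h3 : ‖x - z‖ ^ 2 + ‖y - z‖ ^ 2 = 2 * ‖z - m‖ ^ 2 + ‖x - y‖ ^ 2 / 2 := by
      rw [h1, h2, norm_sub_sq_real ((1 / 2 : ℝ) • (x - y)) (z - m),
        norm_sub_sq_real (-((1 / 2 : ℝ) • (x - y))) (z - m), norm_neg, norm_smul, inner_neg_left]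
      simp only [one_div, norm_inv, Real.norm_ofNat]
      ring
    linear_combination (-(2 * t)) * h3
  simp_rw [e]
  rw [lintegral_const_mul _ (by fun_prop)]
  have h4 : ∫⁻ z : (EuclideanSpace ℝ (Fin d)), ENNReal.ofReal (Real.exp (-(4 * t) * ‖z - m‖ ^ 2)) = gm d (4 * t) := by
    unfold gm
    exact lintegral_sub_right_eq_self (fun z : (EuclideanSpace ℝ (Fin d)) => ENNReal.ofReal (Real.exp (-(4 * t) * ‖z‖ ^ 2))) m
  rw [h4, mul_left_comm, ENNReal.inv_mul_cancel (gm_pos).ne' (gm_lt_top (by positivity)).ne,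
    mul_one]

/-- Gaussian transform of a measure -/
noncomputable def PP (μ : Measure (EuclideanSpace ℝ (Fin d))) (t : ℝ) (z : (EuclideanSpace ℝ (Fin d))) : ℝ≥0∞ :=
  ∫⁻ x, ENNReal.ofReal (Real.exp (-(2 * t) * ‖x - z‖ ^ 2)) ∂μ

/-- mutual energy -/
noncomputable def BB (μ ν : Measure (EuclideanSpace ℝ (Fin d))) : ℝ≥0∞ :=
  ∫⁻ x, ∫⁻ y, (ENNReal.ofReal (‖x - y‖ ^ 2))⁻¹ ∂ν ∂μ

lemma PP_meas (μ : Measure (EuclideanSpace ℝ (Fin d))) [SFinite μ] : Measurable (Function.uncurry (PP μ)) := by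
  unfold PP Function.uncurry
  refine Measurable.lintegral_prod_right' (f := fun q : (ℝ × (EuclideanSpace ℝ (Fin d))) × (EuclideanSpace ℝ (Fin d)) =>
    ENNReal.ofReal (Real.exp (-(2 * q.1.1) * ‖q.2 - q.1.2‖ ^ 2))) ?_
  fun_prop

theorem BB_rep (μ ν : Measure (EuclideanSpace ℝ (Fin d))) [SFinite μ] [SFinite ν] :
    BB μ ν = ∫⁻ t in Ioi (0 : ℝ), (gm d (4 * t))⁻¹ * ∫⁻ z, PP μ t z * PP ν t z := by
  unfold BB
  have h1 : ∀ x y : (EuclideanSpace ℝ (Fin d)), (ENNReal.ofReal (‖x - y‖ ^ 2))⁻¹ =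
      ∫⁻ t in Ioi (0 : ℝ), (gm d (4 * t))⁻¹ *
      ∫⁻ z : (EuclideanSpace ℝ (Fin d)), ENNReal.ofReal (Real.exp (-(2 * t) * ‖x - z‖ ^ 2)) *
        ENNReal.ofReal (Real.exp (-(2 * t) * ‖y - z‖ ^ 2)) := by
    intro x y
    rw [inv_eq_lintegral_exp (by positivity)]
    exact setLIntegral_congr_fun measurableSet_Ioi fun t ht => gauss_conv ht x y
  have hgm : Measurable fun t : ℝ => gm d (4 * t) := by
    unfold gm
    refine Measurable.lintegral_prod_right' (f := fun q : ℝ × (EuclideanSpace ℝ (Fin d)) =>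
      ENNReal.ofReal (Real.exp (-(4 * q.1) * ‖q.2‖ ^ 2))) ?_
    fun_prop
  simp_rw [h1]
  -- swap y and t
  have h2 : ∀ x : (EuclideanSpace ℝ (Fin d)), ∫⁻ y, (∫⁻ t in Ioi (0 : ℝ), (gm d (4 * t))⁻¹ *
      ∫⁻ z : (EuclideanSpace ℝ (Fin d)), ENNReal.ofReal (Real.exp (-(2 * t) * ‖x - z‖ ^ 2)) *
        ENNReal.ofReal (Real.exp (-(2 * t) * ‖y - z‖ ^ 2))) ∂ν =
      ∫⁻ t in Ioi (0 : ℝ), (gm d (4 * t))⁻¹ *
        ∫⁻ z : (EuclideanSpace ℝ (Fin d)), ENNReal.ofReal (Real.exp (-(2 * t) * ‖x - z‖ ^ 2)) * PP ν t z := by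
    intro x
    rw [lintegral_lintegral_swap]
    · refine lintegral_congr fun t => ?_
      rw [lintegral_const_mul]
      · congr 1
        rw [lintegral_lintegral_swap]
        · refine lintegral_congr fun z => ?_
          rw [lintegral_const_mul _ (by fun_prop)]
          rfl
        · refine Measurable.aemeasurable ?_
          unfold Function.uncurry
          fun_prop
      · refine Measurable.lintegral_prod_right' (f := fun q : (EuclideanSpace ℝ (Fin d)) × (EuclideanSpace ℝ (Fin d)) =>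
          ENNReal.ofReal (Real.exp (-(2 * t) * ‖x - q.2‖ ^ 2)) *
            ENNReal.ofReal (Real.exp (-(2 * t) * ‖q.1 - q.2‖ ^ 2))) ?_
        fun_prop
    · refine Measurable.aemeasurable ?_
      unfold Function.uncurry
      refine Measurable.mul ((hgm.comp measurable_snd).inv) ?_
      refine Measurable.lintegral_prod_right' (f := fun q : ((EuclideanSpace ℝ (Fin d)) × ℝ) × (EuclideanSpace ℝ (Fin d)) =>
          ENNReal.ofReal (Real.exp (-(2 * q.1.2) * ‖x - q.2‖ ^ 2)) *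
            ENNReal.ofReal (Real.exp (-(2 * q.1.2) * ‖q.1.1 - q.2‖ ^ 2))) ?_
      fun_prop
  simp_rw [h2]
  have hPm := PP_meas ν
  rw [lintegral_lintegral_swap]
  · refine lintegral_congr fun t => ?_
    rw [lintegral_const_mul]
    · congr 1
      rw [lintegral_lintegral_swap]
      · refine lintegral_congr fun z => ?_
        rw [lintegral_mul_const _ (by fun_prop)]
        rfl
      · refine Measurable.aemeasurable ?_
        unfold Function.uncurry
        refine Measurable.mul (by fun_prop) ?_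
        exact hPm.comp (f := fun q : (EuclideanSpace ℝ (Fin d)) × (EuclideanSpace ℝ (Fin d)) => (t, q.2)) (by fun_prop)
    · refine Measurable.lintegral_prod_right' (f := fun q : (EuclideanSpace ℝ (Fin d)) × (EuclideanSpace ℝ (Fin d)) =>
          ENNReal.ofReal (Real.exp (-(2 * t) * ‖q.1 - q.2‖ ^ 2)) * PP ν t q.2) ?_
      refine Measurable.mul (by fun_prop) ?_
      exact hPm.comp (f := fun q : (EuclideanSpace ℝ (Fin d)) × (EuclideanSpace ℝ (Fin d)) => (t, q.2)) (by fun_prop)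
  · refine Measurable.aemeasurable ?_
    unfold Function.uncurry
    refine Measurable.mul ((hgm.comp measurable_snd).inv) ?_
    refine Measurable.lintegral_prod_right' (f := fun q : ((EuclideanSpace ℝ (Fin d)) × ℝ) × (EuclideanSpace ℝ (Fin d)) =>
          ENNReal.ofReal (Real.exp (-(2 * q.1.2) * ‖q.1.1 - q.2‖ ^ 2)) * PP ν q.1.2 q.2) ?_
    refine Measurable.mul (by fun_prop) ?_
    exact hPm.comp (f := fun q : ((EuclideanSpace ℝ (Fin d)) × ℝ) × (EuclideanSpace ℝ (Fin d)) => (q.1.2, q.2)) (by fun_prop)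

end

end Pool.Agent.Lib.RieszAnnulus
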