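import Mathlib
import Pool.Agent.Lib.RieszAnnulus.Energy

set_option autoImplicit false

/-!
# Strict positive definiteness of the kernel `|x - y|^{-2}`, continued
-/

namespace Pool.Agent.Lib.RieszAnnulus

open MeasureTheory Set Filter Topology
open scoped ENNReal Real RealInnerProductSpace

section
variable {d : ℕ}

lemma PP_le_one (μ : Measure (EuclideanSpace ℝ (Fin d))) [IsProbabilityMeasure μ] {t : ℝ} (ht : 0 < t) (z : (EuclideanSpace ℝ (Fin d))) :
    PP μ t z ≤ 1 := by
  unfold PP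
  calc ∫⁻ x, ENNReal.ofReal (Real.exp (-(2 * t) * ‖x - z‖ ^ 2)) ∂μ ≤ ∫⁻ _, 1 ∂μ := by
        refine lintegral_mono fun x => ?_
        rw [← ENNReal.ofReal_one]
        refine ENNReal.ofReal_le_ofReal ?_
        rw [Real.exp_le_one_iff]
        have : 0 ≤ 2 * t * ‖x - z‖ ^ 2 := by positivity
        linarith
    _ = 1 := by simp

lemma PP_toReal (μ : Measure (EuclideanSpace ℝ (Fin d))) [IsProbabilityMeasure μ] (t : ℝ) (z : (EuclideanSpace ℝ (Fin d))) :
    (PP μ t z).toReal = ∫ x, Real.exp (-(2 * t) * ‖x - z‖ ^ 2) ∂μ := by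
  unfold PP
  rw [integral_eq_lintegral_of_nonneg_ae (Eventually.of_forall fun x => (Real.exp_pos _).le)
    (by fun_prop)]

/-- the defect -/
noncomputable def DD (μ ν : Measure (EuclideanSpace ℝ (Fin d))) : ℝ≥0∞ :=
  ∫⁻ t in Ioi (0 : ℝ), (gm d (4 * t))⁻¹ *
    ∫⁻ z, ENNReal.ofReal (((PP μ t z).toReal - (PP ν t z).toReal) ^ 2)

theorem BB_identity (μ ν : Measure (EuclideanSpace ℝ (Fin d))) [IsProbabilityMeasure μ] [IsProbabilityMeasure ν] :
    BB μ μ + BB ν ν = 2 * BB μ ν + DD μ ν := by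
  rw [BB_rep, BB_rep, BB_rep]
  unfold DD
  have hμ := PP_meas μ
  have hν := PP_meas ν
  have hgm : Measurable fun t : ℝ => (gm d (4 * t))⁻¹ := by
    refine Measurable.inv ?_
    unfold gm
    refine Measurable.lintegral_prod_right' (f := fun q : ℝ × (EuclideanSpace ℝ (Fin d)) =>
      ENNReal.ofReal (Real.exp (-(4 * q.1) * ‖q.2‖ ^ 2))) ?_
    fun_prop
  have hmul : ∀ {F G : ℝ × (EuclideanSpace ℝ (Fin d)) → ℝ≥0∞}, Measurable F → Measurable G →
      Measurable fun t : ℝ => (gm d (4 * t))⁻¹ * ∫⁻ z, F (t, z) * G (t, z) := by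
    intro F G hF hG
    refine hgm.mul ?_
    exact Measurable.lintegral_prod_right' (f := fun q : ℝ × (EuclideanSpace ℝ (Fin d)) => F q * G q) (hF.mul hG)
  have m1 : Measurable fun t : ℝ => (gm d (4 * t))⁻¹ * ∫⁻ z, PP μ t z * PP μ t z := hmul hμ hμ
  have m2 : Measurable fun t : ℝ => (gm d (4 * t))⁻¹ * ∫⁻ z, PP μ t z * PP ν t z := hmul hμ hν
  rw [← lintegral_add_left m1, ← lintegral_const_mul _ m2,
    ← lintegral_add_left (m2.const_mul 2)]
  refine setLIntegral_congr_fun measurableSet_Ioi fun t ht => ?_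
  have ht0 : (0 : ℝ) < t := ht
  rw [mul_left_comm, ← mul_add, ← mul_add]
  congr 1
  have hμt : Measurable fun z => PP μ t z := hμ.comp (f := fun z : (EuclideanSpace ℝ (Fin d)) => (t, z)) (by fun_prop)
  have hνt : Measurable fun z => PP ν t z := hν.comp (f := fun z : (EuclideanSpace ℝ (Fin d)) => (t, z)) (by fun_prop)
  have n1 : Measurable fun z => PP μ t z * PP μ t z := hμt.mul hμt
  have n2 : Measurable fun z => PP μ t z * PP ν t z := hμt.mul hνt
  rw [← lintegral_add_left n1, ← lintegral_const_mul _ n2, ← lintegral_add_left (n2.const_mul 2)]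
  refine lintegral_congr fun z => ?_
  have h1 : PP μ t z ≠ ⊤ := ((PP_le_one μ ht0 z).trans_lt ENNReal.one_lt_top).ne
  have h2 : PP ν t z ≠ ⊤ := ((PP_le_one ν ht0 z).trans_lt ENNReal.one_lt_top).ne
  set p := (PP μ t z).toReal with hp
  set q := (PP ν t z).toReal with hq
  have hp0 : 0 ≤ p := ENNReal.toReal_nonneg
  have hq0 : 0 ≤ q := ENNReal.toReal_nonneg
  rw [← ENNReal.ofReal_toReal h1, ← ENNReal.ofReal_toReal h2, ← hp, ← hq]
  rw [← ENNReal.ofReal_mul hp0, ← ENNReal.ofReal_mul hq0, ← ENNReal.ofReal_mul hp0,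
    show (2 : ℝ≥0∞) = ENNReal.ofReal 2 by simp, ← ENNReal.ofReal_mul (by norm_num),
    ← ENNReal.ofReal_add (by positivity) (by positivity),
    ← ENNReal.ofReal_add (by positivity) (by positivity)]
  congr 1
  ring

/-- Gaussian convolution is injective. -/
theorem gauss_inj {c : ℝ} (hc : 0 < c) (μ ν : Measure (EuclideanSpace ℝ (Fin d))) [IsProbabilityMeasure μ]
    [IsProbabilityMeasure ν]
    (h : ∀ᵐ z : (EuclideanSpace ℝ (Fin d)), ∫ x, Real.exp (-c * ‖x - z‖ ^ 2) ∂μ = ∫ x, Real.exp (-c * ‖x - z‖ ^ 2) ∂ν) :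
    μ = ν := by
  refine Measure.ext_of_charFun ?_
  funext ξ
  set G : ℂ := ∫ w : (EuclideanSpace ℝ (Fin d)), Complex.exp (-(c : ℂ) * ‖w‖ ^ 2 + Complex.I * ⟪ξ, w⟫) with hG
  have hG0 : G ≠ 0 := by
    rw [hG, GaussianFourier.integral_cexp_neg_mul_sq_norm_add (by simpa using hc)]
    refine mul_ne_zero ?_ (Complex.exp_ne_zero _)
    rw [Complex.cpow_def_of_ne_zero]
    · exact Complex.exp_ne_zero _
    · have : (π : ℂ) ≠ 0 := by exact_mod_cast Real.pi_ne_zero
      have hc' : (c : ℂ) ≠ 0 := by exact_mod_cast hc.ne'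
      exact div_ne_zero this hc'
  have key : ∀ (μ : Measure (EuclideanSpace ℝ (Fin d))) [IsProbabilityMeasure μ], charFun μ ξ * G =
      ∫ z : (EuclideanSpace ℝ (Fin d)), Complex.exp (⟪z, ξ⟫ * Complex.I) *
        ((∫ x, Real.exp (-c * ‖x - z‖ ^ 2) ∂μ : ℝ) : ℂ) := by
    intro μ _
    have hI : Integrable (Function.uncurry fun (x z : (EuclideanSpace ℝ (Fin d))) =>
        Complex.exp (⟪z, ξ⟫ * Complex.I) * ((Real.exp (-c * ‖x - z‖ ^ 2) : ℝ) : ℂ))
        (μ.prod volume) := by
      unfold Function.uncurry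
      rw [integrable_prod_iff]
      · constructor
        · refine Eventually.of_forall fun x => ?_
          have h1 : Integrable fun z : (EuclideanSpace ℝ (Fin d)) => Real.exp (-c * ‖x - z‖ ^ 2) := by
            have := (gauss_integrable (d := d) hc).comp_sub_left x
            exact this
          refine Integrable.bdd_mul (c := 1) h1.ofReal (by fun_prop) ?_
          exact Eventually.of_forall fun z => by rw [Complex.norm_exp_ofReal_mul_I]
        · simp only [norm_mul, Complex.norm_exp_ofReal_mul_I, one_mul, Complex.norm_real,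
            Real.norm_eq_abs, abs_of_pos (Real.exp_pos _)]
          have h2 : ∀ x : (EuclideanSpace ℝ (Fin d)), ∫ z : (EuclideanSpace ℝ (Fin d)), Real.exp (-c * ‖x - z‖ ^ 2) =
              ∫ z : (EuclideanSpace ℝ (Fin d)), Real.exp (-c * ‖z‖ ^ 2) := by
            intro x
            exact integral_sub_left_eq_self (fun z : (EuclideanSpace ℝ (Fin d)) => Real.exp (-c * ‖z‖ ^ 2)) volume x
          simp_rw [h2]
          exact integrable_const _
      · fun_prop
    have h3 : ∀ x : (EuclideanSpace ℝ (Fin d)), ∫ z : (EuclideanSpace ℝ (Fin d)), Complex.exp (⟪z, ξ⟫ * Complex.I) *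
        ((Real.exp (-c * ‖x - z‖ ^ 2) : ℝ) : ℂ) = Complex.exp (⟪x, ξ⟫ * Complex.I) * G := by
      intro x
      rw [← integral_add_left_eq_self _ x, hG, ← integral_const_mul]
      refine integral_congr_ae (Eventually.of_forall fun w => ?_)
      simp only
      rw [show x - (x + w) = -w by abel, norm_neg, inner_add_left, Complex.ofReal_exp,
        ← Complex.exp_add, ← Complex.exp_add]
      congr 1
      rw [real_inner_comm ξ w]
      push_cast
      ring
    have h4 : charFun μ ξ * G = ∫ x, (∫ z : (EuclideanSpace ℝ (Fin d)), Complex.exp (⟪z, ξ⟫ * Complex.I) *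
        ((Real.exp (-c * ‖x - z‖ ^ 2) : ℝ) : ℂ)) ∂μ := by
      simp_rw [h3]
      rw [integral_mul_const, charFun_apply]
    rw [h4, integral_integral_swap hI]
    refine integral_congr_ae (Eventually.of_forall fun z => ?_)
    simp only
    rw [integral_const_mul]
    congr 1
    exact integral_ofReal
  have h5 : charFun μ ξ * G = charFun ν ξ * G := by
    rw [key μ, key ν]
    refine integral_congr_ae ?_
    filter_upwards [h] with z hz
    rw [hz]
  exact mul_right_cancel₀ hG0 h5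

theorem eq_of_DD_eq_zero (μ ν : Measure (EuclideanSpace ℝ (Fin d))) [IsProbabilityMeasure μ] [IsProbabilityMeasure ν]
    (h : DD μ ν = 0) : μ = ν := by
  unfold DD at h
  have hμ := PP_meas μ
  have hν := PP_meas ν
  have hgm : Measurable fun t : ℝ => (gm d (4 * t))⁻¹ := by
    refine Measurable.inv ?_
    unfold gm
    refine Measurable.lintegral_prod_right' (f := fun q : ℝ × (EuclideanSpace ℝ (Fin d)) =>
      ENNReal.ofReal (Real.exp (-(4 * q.1) * ‖q.2‖ ^ 2))) ?_
    fun_prop
  have hm : Measurable fun q : ℝ × (EuclideanSpace ℝ (Fin d)) =>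
      ENNReal.ofReal (((PP μ q.1 q.2).toReal - (PP ν q.1 q.2).toReal) ^ 2) := by
    refine Measurable.ennreal_ofReal ?_
    exact ((hμ.ennreal_toReal).sub (hν.ennreal_toReal)).pow_const 2
  have hmm : Measurable fun t : ℝ => (gm d (4 * t))⁻¹ *
      ∫⁻ z, ENNReal.ofReal (((PP μ t z).toReal - (PP ν t z).toReal) ^ 2) :=
    hgm.mul (Measurable.lintegral_prod_right' hm)
  rw [lintegral_eq_zero_iff hmm] at h
  have h2 : ∃ t : ℝ, 0 < t ∧ (gm d (4 * t))⁻¹ * ∫⁻ z, ENNReal.ofReal
      (((PP μ t z).toReal - (PP ν t z).toReal) ^ 2) = 0 := by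
    have h3 : ∀ᵐ t ∂(volume.restrict (Ioi (0 : ℝ))), 0 < t ∧ (gm d (4 * t))⁻¹ *
        ∫⁻ z, ENNReal.ofReal (((PP μ t z).toReal - (PP ν t z).toReal) ^ 2) = 0 := by
      filter_upwards [h, ae_restrict_mem measurableSet_Ioi] with t ht ht0
      exact ⟨ht0, ht⟩
    have hne : (ae (volume.restrict (Ioi (0 : ℝ)))).NeBot := by
      rw [ae_restrict_neBot]
      simp
    exact h3.exists
  obtain ⟨t, ht, h3⟩ := h2
  rw [mul_eq_zero] at h3
  rcases h3 with h3 | h3
  · exact absurd h3 (ENNReal.inv_ne_zero.2 (gm_lt_top (by positivity)).ne)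
  · have hmt : Measurable fun z : (EuclideanSpace ℝ (Fin d)) =>
        ENNReal.ofReal (((PP μ t z).toReal - (PP ν t z).toReal) ^ 2) :=
      hm.comp (f := fun z : (EuclideanSpace ℝ (Fin d)) => (t, z)) (by fun_prop)
    rw [lintegral_eq_zero_iff hmt] at h3
    refine gauss_inj (c := 2 * t) (by positivity) μ ν ?_
    filter_upwards [h3] with z hz
    simp only [Pi.zero_apply, ENNReal.ofReal_eq_zero] at hz
    have h4 : (PP μ t z).toReal - (PP ν t z).toReal = 0 := by
      have := le_antisymm hz (sq_nonneg _)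
      exact pow_eq_zero_iff two_ne_zero |>.1 this
    rw [← PP_toReal, ← PP_toReal]
    linarith

end

end Pool.Agent.Lib.RieszAnnulus
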