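import Mathlib
import Pool.Agent.Lib.RieszAnnulus.Defs

set_option autoImplicit false

/-!
# The kernel `|x - y|^{-2}` integrated against radial functions in `ℝ³`
-/

namespace Pool.Agent.Lib.RieszAnnulus

open MeasureTheory Set Filter Topology
open scoped ENNReal Real

/-- three dimensional Euclidean space -/
abbrev E3 : Type := EuclideanSpace ℝ (Fin 3)

lemma lintegral_E3 {g : E3 → ℝ≥0∞} (hg : Measurable g) :
    ∫⁻ y, g y = ∫⁻ u : ℝ, ∫⁻ p : ℝ × ℝ, g (WithLp.toLp 2 ![u, p.1, p.2]) := by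
  have h1 := (PiLp.volume_preserving_toLp (Fin 3)).lintegral_comp hg
  rw [← h1]
  set h : (Fin 3 → ℝ) → ℝ≥0∞ := fun v => g (WithLp.toLp 2 v) with hh
  have hhm : Measurable h := hg.comp (WithLp.measurable_toLp 2 _)
  have h2 := (volume_preserving_piFinSuccAbove (fun _ : Fin 3 => ℝ) 0).symm.lintegral_comp hhm
  rw [← h2]
  have hm2 : Measurable fun q : ℝ × (Fin 2 → ℝ) =>
      h ((MeasurableEquiv.piFinSuccAbove (fun _ : Fin 3 => ℝ) 0).symm q) :=
    hhm.comp (MeasurableEquiv.measurable _)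
  rw [Measure.volume_eq_prod, lintegral_prod _ hm2.aemeasurable]
  refine lintegral_congr fun u => ?_
  have hm3 : Measurable fun w : Fin 2 → ℝ =>
      h ((MeasurableEquiv.piFinSuccAbove (fun _ : Fin 3 => ℝ) 0).symm (u, w)) :=
    hm2.comp measurable_prodMk_left
  have h3 := (volume_preserving_finTwoArrow ℝ).symm.lintegral_comp hm3
  rw [← h3]
  refine lintegral_congr fun p => ?_
  have e : (MeasurableEquiv.piFinSuccAbove (fun _ : Fin 3 => ℝ) 0).symm
      (u, (MeasurableEquiv.finTwoArrow (α := ℝ)).symm p) = ![u, p.1, p.2] := by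
    funext i
    fin_cases i <;> rfl
  simp only
  rw [e]

lemma polar_radial {h : ℝ → ℝ≥0∞} (hh : Measurable h) :
    ∫⁻ p : ℝ × ℝ, h (p.1 ^ 2 + p.2 ^ 2) =
      ∫⁻ ρ in Ioi (0 : ℝ), ENNReal.ofReal (2 * π * ρ) * h (ρ ^ 2) := by
  rw [← lintegral_comp_polarCoord_symm]
  have e : ∀ p : ℝ × ℝ, ENNReal.ofReal p.1 • h ((polarCoord.symm p).1 ^ 2 +
      (polarCoord.symm p).2 ^ 2) = ENNReal.ofReal p.1 * h (p.1 ^ 2) := by
    intro p
    rw [polarCoord_symm_apply, smul_eq_mul]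
    congr 2
    simp only
    have := Real.sin_sq_add_cos_sq p.2
    linear_combination (p.1 ^ 2) * this
  simp_rw [e]
  rw [polarCoord_target, Measure.volume_eq_prod, ← Measure.prod_restrict, lintegral_prod]
  · refine setLIntegral_congr_fun measurableSet_Ioi fun ρ hρ => ?_
    have hρ0 : (0 : ℝ) < ρ := hρ
    simp only [lintegral_const, Measure.restrict_apply_univ, Real.volume_Ioo]
    rw [mul_right_comm, ← ENNReal.ofReal_mul hρ0.le]
    congr 2
    ring
  · refine Measurable.aemeasurable ?_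
    exact (measurable_fst.ennreal_ofReal).mul (hh.comp (measurable_fst.pow_const 2))

lemma polar_half {Q : ℝ × ℝ → ℝ≥0∞} (hQ : Measurable Q) :
    ∫⁻ u : ℝ, ∫⁻ ρ in Ioi (0 : ℝ), Q (u, ρ) =
      ∫⁻ b in Ioi (0 : ℝ), ∫⁻ θ in Ioo 0 π,
        ENNReal.ofReal b * Q (b * Real.cos θ, b * Real.sin θ) := by
  set U : Set (ℝ × ℝ) := {p | 0 < p.2} with hU
  have hUm : MeasurableSet U := measurableSet_lt measurable_const measurable_snd
  have h1 : ∫⁻ u : ℝ, ∫⁻ ρ in Ioi (0 : ℝ), Q (u, ρ) = ∫⁻ p, U.indicator Q p := by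
    rw [Measure.volume_eq_prod, lintegral_prod _ (hQ.indicator hUm).aemeasurable]
    refine lintegral_congr fun u => ?_
    rw [← lintegral_indicator measurableSet_Ioi]
    refine lintegral_congr fun ρ => ?_
    by_cases h : 0 < ρ
    · rw [indicator_of_mem (mem_Ioi.2 h), indicator_of_mem (show (u, ρ) ∈ U from h)]
    · rw [indicator_of_notMem (show ρ ∉ Ioi 0 from fun h' => h (mem_Ioi.1 h')),
        indicator_of_notMem (show (u, ρ) ∉ U from fun h' => h h')]
  rw [h1, ← lintegral_comp_polarCoord_symm, polarCoord_target, Measure.volume_eq_prod,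
    ← Measure.prod_restrict, lintegral_prod]
  · refine setLIntegral_congr_fun measurableSet_Ioi fun b hb => ?_
    have hb0 : (0 : ℝ) < b := hb
    simp only [polarCoord_symm_apply, smul_eq_mul]
    rw [← lintegral_indicator measurableSet_Ioo, ← lintegral_indicator measurableSet_Ioo]
    refine lintegral_congr fun θ => ?_
    by_cases hθ : θ ∈ Ioo (-π) π
    · rw [indicator_of_mem hθ]
      by_cases hθ0 : 0 < θ
      · have hs : 0 < Real.sin θ := Real.sin_pos_of_pos_of_lt_pi hθ0 hθ.2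
        rw [indicator_of_mem (show (b * Real.cos θ, b * Real.sin θ) ∈ U from mul_pos hb0 hs),
          indicator_of_mem (show θ ∈ Ioo 0 π from ⟨hθ0, hθ.2⟩)]
      · have hs : Real.sin θ ≤ 0 := Real.sin_nonpos_of_nonpos_of_neg_pi_le (not_lt.1 hθ0) hθ.1.le
        rw [indicator_of_notMem (show (b * Real.cos θ, b * Real.sin θ) ∉ U from
            fun h => absurd h (not_lt.2 (mul_nonpos_of_nonneg_of_nonpos hb0.le hs))),
          indicator_of_notMem (show θ ∉ Ioo 0 π from fun h => hθ0 h.1), mul_zero]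
    · rw [indicator_of_notMem hθ, indicator_of_notMem]
      intro h
      exact hθ ⟨by linarith [h.1, Real.pi_pos], h.2⟩
  · refine Measurable.aemeasurable ?_
    refine (measurable_fst.ennreal_ofReal).smul ((hQ.indicator hUm).comp ?_)
    have : (polarCoord.symm : ℝ × ℝ → ℝ × ℝ) =
        fun p => (p.1 * Real.cos p.2, p.1 * Real.sin p.2) := by
      funext p; exact polarCoord_symm_apply p
    rw [this]
    fun_prop

lemma inner_angle {a b : ℝ} (ha : 0 < a) (hb : 0 < b) (hab : a ≠ b) :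
    ∫⁻ θ in Ioo 0 π, ENNReal.ofReal (Real.sin θ / (a ^ 2 + b ^ 2 - 2 * a * b * Real.cos θ)) =
      ENNReal.ofReal (1 / (a * b) * Real.log ((a + b) / |a - b|)) := by
  have hpos : ∀ θ : ℝ, 0 < a ^ 2 + b ^ 2 - 2 * a * b * Real.cos θ := by
    intro θ
    have h1 := Real.cos_le_one θ
    have h2 : 0 < (a - b) ^ 2 := by
      have : a - b ≠ 0 := sub_ne_zero.2 hab
      positivity
    nlinarith [mul_pos ha hb]
  have hcont : Continuous fun θ => Real.sin θ / (a ^ 2 + b ^ 2 - 2 * a * b * Real.cos θ) :=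
    Real.continuous_sin.div (by fun_prop) fun θ => (hpos θ).ne'
  rw [← ofReal_integral_eq_lintegral_ofReal]
  · congr 1
    rw [← integral_Ioc_eq_integral_Ioo, ← intervalIntegral.integral_of_le Real.pi_pos.le]
    have hd : ∀ θ ∈ uIcc 0 π, HasDerivAt (fun θ =>
        1 / (2 * (a * b)) * Real.log (a ^ 2 + b ^ 2 - 2 * a * b * Real.cos θ))
        (Real.sin θ / (a ^ 2 + b ^ 2 - 2 * a * b * Real.cos θ)) θ := by
      intro θ _
      have h1 : HasDerivAt (fun θ => a ^ 2 + b ^ 2 - 2 * a * b * Real.cos θ)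
          (2 * a * b * Real.sin θ) θ := by
        have := ((Real.hasDerivAt_cos θ).const_mul (2 * a * b)).const_sub (a ^ 2 + b ^ 2)
        convert! this using 1
        ring
      have h2 := (h1.log (hpos θ).ne').const_mul (1 / (2 * (a * b)))
      convert! h2 using 1
      field_simp
    rw [intervalIntegral.integral_eq_sub_of_hasDerivAt hd (hcont.intervalIntegrable _ _)]
    have e1 : a ^ 2 + b ^ 2 - 2 * a * b * Real.cos π = (a + b) ^ 2 := by
      rw [Real.cos_pi]; ring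
    have e2 : a ^ 2 + b ^ 2 - 2 * a * b * Real.cos 0 = |a - b| ^ 2 := by
      rw [Real.cos_zero, sq_abs]; ring
    have hab' : 0 < |a - b| := abs_pos.2 (sub_ne_zero.2 hab)
    rw [e1, e2, Real.log_pow, Real.log_pow, Real.log_div (by positivity) hab'.ne']
    push_cast
    field_simp
  · exact (hcont.integrableOn_Icc (a := 0) (b := π)).mono_set Ioo_subset_Icc_self
  · filter_upwards [ae_restrict_mem measurableSet_Ioo] with θ hθ
    exact div_nonneg (Real.sin_pos_of_pos_of_lt_pi hθ.1 hθ.2).le (hpos θ).le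

lemma exists_rotation (x : E3) :
    ∃ L : E3 ≃ₗᵢ[ℝ] E3, L x = EuclideanSpace.single 0 ‖x‖ := by
  have h : ‖x‖ = ‖(EuclideanSpace.single 0 ‖x‖ : E3)‖ := by
    rw [PiLp.norm_single]; simp
  exact ⟨_, Submodule.reflection_sub h⟩

theorem radial_potential {f : ℝ → ℝ≥0∞} (hf : Measurable f) {x : E3} (hx : x ≠ 0) :
    ∫⁻ y, f ‖y‖ * (ENNReal.ofReal (‖x - y‖ ^ 2))⁻¹ =
      ∫⁻ b in Ioi (0 : ℝ), f b *
        ENNReal.ofReal (2 * π * b / ‖x‖ * Real.log ((‖x‖ + b) / |‖x‖ - b|)) := by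
  obtain ⟨L, hL⟩ := exists_rotation x
  set a := ‖x‖ with ha
  have ha0 : 0 < a := norm_pos_iff.2 hx
  set g : E3 → ℝ≥0∞ := fun y =>
    f ‖y‖ * (ENNReal.ofReal (‖EuclideanSpace.single 0 a - y‖ ^ 2))⁻¹ with hg
  have hgm : Measurable g := by
    refine (hf.comp measurable_norm).mul ?_
    refine Measurable.inv ?_
    refine Measurable.ennreal_ofReal ?_
    fun_prop
  have h1 : ∫⁻ y, f ‖y‖ * (ENNReal.ofReal (‖x - y‖ ^ 2))⁻¹ = ∫⁻ y, g y := by
    rw [← L.measurePreserving.lintegral_comp hgm]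
    refine lintegral_congr fun y => ?_
    simp only [hg]
    rw [L.norm_map, ← hL, ← map_sub, L.norm_map]
  rw [h1, lintegral_E3 hgm]
  have h2 : ∀ (u : ℝ) (p : ℝ × ℝ), g (WithLp.toLp 2 ![u, p.1, p.2]) =
      f (√(u ^ 2 + (p.1 ^ 2 + p.2 ^ 2))) *
        (ENNReal.ofReal ((a - u) ^ 2 + (p.1 ^ 2 + p.2 ^ 2)))⁻¹ := by
    intro u p
    simp only [hg]
    congr 2
    · rw [EuclideanSpace.norm_eq]
      congr 1
      simp [Fin.sum_univ_three]
      ring_nf
    · rw [EuclideanSpace.norm_eq, Real.sq_sqrt (by positivity)]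
      simp [Fin.sum_univ_three]
      ring
  simp_rw [h2]
  have h3 : ∀ u : ℝ, ∫⁻ p : ℝ × ℝ, f (√(u ^ 2 + (p.1 ^ 2 + p.2 ^ 2))) *
        (ENNReal.ofReal ((a - u) ^ 2 + (p.1 ^ 2 + p.2 ^ 2)))⁻¹ =
      ∫⁻ ρ in Ioi (0 : ℝ), ENNReal.ofReal (2 * π * ρ) * (f (√(u ^ 2 + ρ ^ 2)) *
        (ENNReal.ofReal ((a - u) ^ 2 + ρ ^ 2))⁻¹) := by
    intro u
    refine polar_radial (h := fun t => f (√(u ^ 2 + t)) *
        (ENNReal.ofReal ((a - u) ^ 2 + t))⁻¹) ?_
    refine (hf.comp (by fun_prop)).mul (Measurable.inv (Measurable.ennreal_ofReal (by fun_prop)))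
  simp_rw [h3]
  rw [polar_half (Q := fun q => ENNReal.ofReal (2 * π * q.2) * (f (√(q.1 ^ 2 + q.2 ^ 2)) *
        (ENNReal.ofReal ((a - q.1) ^ 2 + q.2 ^ 2))⁻¹))]
  · -- compute the inner integral
    have hne : ∀ᵐ b ∂(volume.restrict (Ioi (0 : ℝ))), b ≠ a := by
      refine ae_restrict_of_ae ?_
      simp [ae_iff, measure_singleton]
    refine lintegral_congr_ae ?_
    filter_upwards [hne, ae_restrict_mem measurableSet_Ioi] with b hba hb
    have hb0 : (0 : ℝ) < b := hb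
    have e1 : ∀ θ : ℝ, (b * Real.cos θ) ^ 2 + (b * Real.sin θ) ^ 2 = b ^ 2 := by
      intro θ
      linear_combination (b ^ 2) * Real.sin_sq_add_cos_sq θ
    have e2 : ∀ θ : ℝ, (a - b * Real.cos θ) ^ 2 + (b * Real.sin θ) ^ 2 =
        a ^ 2 + b ^ 2 - 2 * a * b * Real.cos θ := by
      intro θ
      linear_combination (b ^ 2) * Real.sin_sq_add_cos_sq θ
    simp only [e1, e2, Real.sqrt_sq hb0.le]
    have hpos : ∀ θ : ℝ, 0 < a ^ 2 + b ^ 2 - 2 * a * b * Real.cos θ := by
      intro θ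
      have h1 := Real.cos_le_one θ
      have h2 : 0 < (a - b) ^ 2 := by
        have : a - b ≠ 0 := sub_ne_zero.2 (Ne.symm hba)
        positivity
      nlinarith [mul_pos ha0 hb0]
    have e3 : ∀ θ ∈ Ioo 0 π, ENNReal.ofReal b * (ENNReal.ofReal (2 * π * (b * Real.sin θ)) *
        (f b * (ENNReal.ofReal (a ^ 2 + b ^ 2 - 2 * a * b * Real.cos θ))⁻¹)) =
        (f b * ENNReal.ofReal (2 * π * b ^ 2)) *
          ENNReal.ofReal (Real.sin θ / (a ^ 2 + b ^ 2 - 2 * a * b * Real.cos θ)) := by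
      intro θ hθ
      have hs : 0 < Real.sin θ := Real.sin_pos_of_pos_of_lt_pi hθ.1 hθ.2
      rw [← ENNReal.ofReal_inv_of_pos (hpos θ), div_eq_mul_inv]
      rw [show 2 * π * (b * Real.sin θ) = (2 * π * b) * Real.sin θ by ring,
        ENNReal.ofReal_mul (show 0 ≤ 2 * π * b by positivity),
        ENNReal.ofReal_mul hs.le, show 2 * π * b ^ 2 = b * (2 * π * b) by ring,
        ENNReal.ofReal_mul hb0.le]
      ring
    rw [setLIntegral_congr_fun measurableSet_Ioo e3, lintegral_const_mul]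
    · rw [inner_angle ha0 hb0 (Ne.symm hba), mul_assoc, ← ENNReal.ofReal_mul (by positivity)]
      congr 2
      field_simp
    · refine Measurable.ennreal_ofReal ?_
      fun_prop
  · refine Measurable.mul (Measurable.ennreal_ofReal (by fun_prop)) ?_
    refine (hf.comp (by fun_prop)).mul (Measurable.inv (Measurable.ennreal_ofReal (by fun_prop)))

end Pool.Agent.Lib.RieszAnnulus
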