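import Mathlib
import Pool.Agent.Lib.RieszAnnulus.Defs

set_option autoImplicit false

/-!
# Elementary facts about the parameter `λ`
-/

namespace Pool.Agent.Lib.RieszAnnulus

open MeasureTheory Set
open scoped ENNReal Real

section
variable {r R : ℝ}

lemma k_lt_one (hr : 0 < r) (hrR : r < R) : (r / R) ^ 2 < 1 := by
  have hR : 0 < R := hr.trans hrR
  have h1 : r / R < 1 := (div_lt_one hR).2 hrR
  have h0 : 0 < r / R := by positivity
  nlinarith

lemma one_sub_pos {k : ℝ} (hk : k ^ 2 < 1) (u : ℝ) : 0 < 1 - k ^ 2 * Real.sin u ^ 2 := by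
  have := Real.sin_sq_le_one u
  nlinarith [sq_nonneg k, sq_nonneg (Real.sin u)]

lemma ell_cont1 {k : ℝ} (hk : k ^ 2 < 1) :
    Continuous fun u : ℝ => 1 / √(1 - k ^ 2 * Real.sin u ^ 2) := by
  refine continuous_const.div (by fun_prop) fun u => ?_
  exact (Real.sqrt_pos.2 (one_sub_pos hk u)).ne'

lemma ell_cont2 {k : ℝ} : Continuous fun u : ℝ => √(1 - k ^ 2 * Real.sin u ^ 2) := by
  fun_prop

lemma ellK_pos {k : ℝ} (hk : k ^ 2 < 1) : 0 < ellK k := by
  unfold ellK
  apply intervalIntegral.intervalIntegral_pos_of_pos ((ell_cont1 hk).intervalIntegrable _ _)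
    _ (by positivity)
  intro u
  have := Real.sqrt_pos.2 (one_sub_pos hk u)
  positivity

lemma ellE_le_ellK {k : ℝ} (hk : k ^ 2 < 1) : ellE k ≤ ellK k := by
  unfold ellE ellK
  refine intervalIntegral.integral_mono_on (by positivity) (ell_cont2.intervalIntegrable _ _)
    ((ell_cont1 hk).intervalIntegrable _ _) fun u _ => ?_
  have h1 := Real.sqrt_pos.2 (one_sub_pos hk u)
  rw [le_div_iff₀ h1, Real.mul_self_sqrt (one_sub_pos hk u).le]
  have : 0 ≤ k ^ 2 * Real.sin u ^ 2 := by positivity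
  linarith

lemma le_ellE {k : ℝ} (hk : k ^ 2 < 1) : (1 - k ^ 2) * ellK k ≤ ellE k := by
  unfold ellE ellK
  rw [← intervalIntegral.integral_const_mul]
  refine intervalIntegral.integral_mono_on (by positivity)
    (((ell_cont1 hk).const_mul _).intervalIntegrable _ _)
    (ell_cont2.intervalIntegrable _ _) fun u _ => ?_
  have h1 := Real.sqrt_pos.2 (one_sub_pos hk u)
  rw [mul_one_div, div_le_iff₀ h1, Real.mul_self_sqrt (one_sub_pos hk u).le]
  have := Real.sin_sq_le_one u
  nlinarith [sq_nonneg k]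

lemma lam_nonneg (hr : 0 < r) (hrR : r < R) : 0 ≤ lam r R := by
  unfold lam
  have hk := k_lt_one hr hrR
  have h1 := ellK_pos hk
  have h2 := ellE_le_ellK hk
  have : ellE (r / R) / ellK (r / R) ≤ 1 := (div_le_one h1).2 h2
  have h3 : 0 ≤ 1 - ellE (r / R) / ellK (r / R) := by linarith
  positivity

lemma lam_le (hr : 0 < r) (hrR : r < R) : lam r R ≤ r ^ 2 := by
  unfold lam
  have hR : 0 < R := hr.trans hrR
  have hk := k_lt_one hr hrR
  have h1 := ellK_pos hk
  have h2 := le_ellE hk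
  have h3 : 1 - (r / R) ^ 2 ≤ ellE (r / R) / ellK (r / R) := by
    rwa [le_div_iff₀ h1]
  have h4 : R ^ 2 * (r / R) ^ 2 = r ^ 2 := by
    rw [div_pow]; field_simp
  nlinarith [sq_nonneg R]

lemma mass_pos (hr : 0 < r) (hrR : r < R) : 0 < R ^ 2 + r ^ 2 - 2 * lam r R := by
  have := lam_le hr hrR
  nlinarith

/-- The equation defining `λ`. -/
lemma lam_spec (hr : 0 < r) (hrR : r < R) :
    ∫ u in (0 : ℝ)..π / 2, (r ^ 2 * Real.sin u ^ 2 - lam r R) / √(R ^ 2 - r ^ 2 * Real.sin u ^ 2) =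
      0 := by
  have hR : 0 < R := hr.trans hrR
  have hk := k_lt_one hr hrR
  have h1 := ellK_pos hk
  have e : ∀ u : ℝ, (r ^ 2 * Real.sin u ^ 2 - lam r R) / √(R ^ 2 - r ^ 2 * Real.sin u ^ 2) =
      ((R ^ 2 - lam r R) / R) * (1 / √(1 - (r / R) ^ 2 * Real.sin u ^ 2)) -
        R * √(1 - (r / R) ^ 2 * Real.sin u ^ 2) := by
    intro u
    have h2 : R ^ 2 - r ^ 2 * Real.sin u ^ 2 = R ^ 2 * (1 - (r / R) ^ 2 * Real.sin u ^ 2) := by
      field_simp
    have h3 := one_sub_pos hk u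
    have h4 := Real.sqrt_pos.2 h3
    have h5 : r ^ 2 * Real.sin u ^ 2 =
        R ^ 2 - R ^ 2 * √(1 - (r / R) ^ 2 * Real.sin u ^ 2) ^ 2 := by
      rw [Real.sq_sqrt h3.le]
      linear_combination -h2
    rw [h2, Real.sqrt_mul (by positivity), Real.sqrt_sq hR.le, h5]
    field_simp
    ring
  simp_rw [e]
  rw [intervalIntegral.integral_sub (((ell_cont1 hk).const_mul _).intervalIntegrable _ _)
    ((ell_cont2.const_mul _).intervalIntegrable _ _), intervalIntegral.integral_const_mul,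
    intervalIntegral.integral_const_mul]
  change (R ^ 2 - lam r R) / R * ellK (r / R) - R * ellE (r / R) = 0
  unfold lam
  field_simp
  ring

end

end Pool.Agent.Lib.RieszAnnulus
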