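import Mathlib

set_option autoImplicit false

/-!
# The resolvent of the arcsine law

For real `m`, `h > 0` and complex `ζ` outside the segment `[m - h, m + h]` put
`S ζ = ∫_0^π dθ / (m + h cos θ - ζ)`.  We prove `(S ζ)^2 * ((ζ - m)^2 - h^2) = π^2`.
-/

namespace Pool.Agent.Lib.RieszAnnulus

open Complex MeasureTheory Set
open scoped Real

lemma circle_poisson {w : ℂ} (hw : ‖w‖ < 1) :
    ∫ θ in (0 : ℝ)..2 * π, 1 / ((1 - w * exp (θ * I)) * (1 - w * exp (-(θ * I)))) =
      2 * π / (1 - w ^ 2) := by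
  have hne : ∀ z : ℂ, ‖z‖ ≤ 1 → 1 - w * z ≠ 0 := by
    intro z hz h0
    have h1 : w * z = 1 := by linear_combination -h0
    have h2 : ‖w * z‖ = 1 := by rw [h1]; simp
    rw [norm_mul] at h2
    nlinarith [norm_nonneg w, norm_nonneg z]
  have hf : DifferentiableOn ℂ (fun z : ℂ => (1 - w * z)⁻¹) (Metric.closedBall 0 1) := by
    intro z hz
    rw [mem_closedBall_zero_iff] at hz
    refine DifferentiableAt.differentiableWithinAt ?_
    exact ((differentiableAt_const _).sub ((differentiableAt_const _).mul differentiableAt_id)).inv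
      (hne z hz)
  have hw' : w ∈ Metric.ball (0 : ℂ) 1 := by simpa using hw
  have key := hf.circleIntegral_sub_inv_smul hw'
  rw [circleIntegral] at key
  have e1 : ∀ θ : ℝ, deriv (circleMap 0 1) θ • ((circleMap 0 1 θ - w)⁻¹ •
      (fun z : ℂ => (1 - w * z)⁻¹) (circleMap 0 1 θ)) =
      I * (1 / ((1 - w * exp (θ * I)) * (1 - w * exp (-(θ * I))))) := by
    intro θ
    have hE : exp (θ * I) ≠ 0 := exp_ne_zero _
    have hE1 : ‖exp (θ * I)‖ = 1 := norm_exp_ofReal_mul_I θ
    have h3 : exp (-(θ * I)) = (exp (θ * I))⁻¹ := exp_neg _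
    have h4 : 1 - w * exp (θ * I) ≠ 0 := hne _ hE1.le
    have h5 : exp (θ * I) - w ≠ 0 := by
      intro h0
      have : exp (θ * I) = w := by linear_combination h0
      rw [this] at hE1
      linarith
    simp only [deriv_circleMap, smul_eq_mul, circleMap, ofReal_one, one_mul, zero_add]
    rw [h3]
    have h6 : 1 - w * (exp (θ * I))⁻¹ ≠ 0 := by
      intro h0
      apply h5
      field_simp at h0
      linear_combination h0
    have h7 : 1 - w * (exp (θ * I))⁻¹ = (exp (θ * I) - w) / exp (θ * I) := by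
      field_simp
    rw [h7]
    field_simp
  simp_rw [e1] at key
  rw [intervalIntegral.integral_const_mul] at key
  have hI : I ≠ 0 := I_ne_zero
  apply mul_left_cancel₀ hI
  rw [key]
  simp only [smul_eq_mul]
  rw [pow_two]
  ring

/-- the resolvent -/
noncomputable def S (m h : ℝ) (ζ : ℂ) : ℂ :=
  ∫ θ in (0 : ℝ)..π, 1 / ((m : ℂ) + h * Real.cos θ - ζ)

lemma exists_joukowski {u : ℂ} (hu : ∀ x : ℝ, x ∈ Icc (-1 : ℝ) 1 → u ≠ x) :
    ∃ w : ℂ, w ≠ 0 ∧ ‖w‖ < 1 ∧ w ^ 2 - 2 * u * w + 1 = 0 := by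
  obtain ⟨s, hs⟩ := IsAlgClosed.exists_pow_nat_eq (u ^ 2 - 1) (n := 2) (by norm_num)
  have key : ∀ w : ℂ, w ^ 2 - 2 * u * w + 1 = 0 → w ≠ 0 ∧ ‖w‖ ≠ 1 := by
    intro w hw
    have hw0 : w ≠ 0 := by
      rintro rfl
      simp at hw
    refine ⟨hw0, fun h1 => ?_⟩
    have h2 : w * (starRingEnd ℂ) w = 1 := by
      rw [mul_conj, normSq_eq_norm_sq, h1]; simp
    have h3 : 2 * u = w + (starRingEnd ℂ) w := by
      apply mul_right_cancel₀ hw0
      linear_combination -hw - h2
    have h4 : u = (w.re : ℂ) := by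
      rw [add_conj] at h3
      push_cast at h3
      linear_combination h3 / 2
    have h5 := abs_re_le_norm w
    rw [h1, abs_le] at h5
    exact hu w.re ⟨h5.1, h5.2⟩ h4
  have h1 : (u - s) ^ 2 - 2 * u * (u - s) + 1 = 0 := by linear_combination hs
  have h2 : (u + s) ^ 2 - 2 * u * (u + s) + 1 = 0 := by linear_combination hs
  have h3 : (u - s) * (u + s) = 1 := by linear_combination -hs
  obtain ⟨ha, hb⟩ := key _ h1
  obtain ⟨hc, hd⟩ := key _ h2
  rcases lt_or_gt_of_ne hb with h | h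
  · exact ⟨_, ha, h, h1⟩
  · refine ⟨_, hc, ?_, h2⟩
    have h4 : ‖u - s‖ * ‖u + s‖ = 1 := by rw [← norm_mul, h3]; simp
    by_contra hcon
    push Not at hcon
    nlinarith

theorem S_sq {m h : ℝ} (hh : 0 < h) {ζ : ℂ}
    (hζ : ∀ x : ℝ, x ∈ Icc (m - h) (m + h) → ζ ≠ x) :
    S m h ζ ^ 2 * ((ζ - m) ^ 2 - (h : ℂ) ^ 2) = (π : ℂ) ^ 2 := by
  have hh' : (h : ℂ) ≠ 0 := by exact_mod_cast hh.ne'
  obtain ⟨u, hζu⟩ : ∃ u : ℂ, ζ = m + h * u := ⟨(ζ - m) / h, by field_simp; ring⟩
  obtain ⟨w, hw0, hw1, hwq⟩ := exists_joukowski (u := u) (by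
    intro x hx he
    refine hζ (m + h * x) ⟨by nlinarith [hx.1], by nlinarith [hx.2]⟩ ?_
    rw [hζu, he]; push_cast; ring)
  have hne : ∀ z : ℂ, ‖z‖ ≤ 1 → 1 - w * z ≠ 0 := by
    intro z hz h0
    have h1 : w * z = 1 := by linear_combination -h0
    have h2 : ‖w * z‖ = 1 := by rw [h1]; simp
    rw [norm_mul] at h2
    nlinarith [norm_nonneg w, norm_nonneg z]
  have hcos : ∀ θ : ℝ, (Real.cos θ : ℂ) = (exp (θ * I) + exp (-(θ * I))) / 2 := by
    intro θ
    rw [ofReal_cos, Complex.cos]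
    congr 2
    rw [neg_mul]
  have hden : ∀ θ : ℝ, (m : ℂ) + h * Real.cos θ - ζ =
      -(h / (2 * w)) * ((1 - w * exp (θ * I)) * (1 - w * exp (-(θ * I)))) := by
    intro θ
    have hEE : exp (θ * I) * exp (-(θ * I)) = 1 := by rw [← exp_add]; simp
    rw [hζu, hcos]
    field_simp
    linear_combination (h * w ^ 2) * hEE + h * hwq
  have hfull : ∫ θ in (0 : ℝ)..2 * π, 1 / ((m : ℂ) + h * Real.cos θ - ζ) =
      -(2 * w / h) * (2 * π / (1 - w ^ 2)) := by
    rw [← circle_poisson hw1, ← intervalIntegral.integral_const_mul]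
    refine intervalIntegral.integral_congr fun θ _ => ?_
    rw [hden]
    have h1 : 1 - w * exp (θ * I) ≠ 0 := hne _ (norm_exp_ofReal_mul_I θ).le
    have h2 : 1 - w * exp (-(θ * I)) ≠ 0 := by
      refine hne _ (le_of_eq ?_)
      have := norm_exp_ofReal_mul_I (-θ)
      push_cast at this
      rwa [neg_mul] at this
    field_simp
  have hcont : Continuous fun θ : ℝ => 1 / ((m : ℂ) + h * Real.cos θ - ζ) := by
    refine continuous_const.div (by fun_prop) fun θ h0 => ?_
    refine hζ (m + h * Real.cos θ) ⟨?_, ?_⟩ ?_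
    · nlinarith [Real.neg_one_le_cos θ]
    · nlinarith [Real.cos_le_one θ]
    · push_cast
      push_cast at h0
      linear_combination -h0
  have hhalf : ∫ θ in (0 : ℝ)..2 * π, 1 / ((m : ℂ) + h * Real.cos θ - ζ) = 2 * S m h ζ := by
    rw [← intervalIntegral.integral_add_adjacent_intervals (b := π)
      (hcont.intervalIntegrable _ _) (hcont.intervalIntegrable _ _)]
    have : ∫ θ in π..2 * π, 1 / ((m : ℂ) + h * Real.cos θ - ζ) = S m h ζ := by
      have e := intervalIntegral.integral_comp_sub_left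
        (fun θ : ℝ => 1 / ((m : ℂ) + h * Real.cos θ - ζ)) (a := 0) (b := π) (2 * π)
      simp only [sub_zero] at e
      rw [show 2 * π - π = π by ring] at e
      rw [← e, S]
      refine intervalIntegral.integral_congr fun θ _ => ?_
      rw [Real.cos_two_pi_sub]
    rw [this, S]
    ring
  have hSval : S m h ζ = -(2 * π * w / (h * (1 - w ^ 2))) := by
    have : 2 * S m h ζ = -(2 * w / h) * (2 * π / (1 - w ^ 2)) := by rw [← hhalf, hfull]
    have h3 : 1 - w ^ 2 ≠ 0 := by
      have := hne w hw1.le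
      rwa [← pow_two] at this
    have h4 : -(2 * π * w / (h * (1 - w ^ 2))) = (-(2 * w / h) * (2 * π / (1 - w ^ 2))) / 2 := by
      field_simp
    rw [h4, ← this]
    ring
  have h3 : 1 - w ^ 2 ≠ 0 := by
    have := hne w hw1.le
    rwa [← pow_two] at this
  have huw : u = (w ^ 2 + 1) / (2 * w) := by
    field_simp
    linear_combination -hwq
  rw [hSval, hζu, huw]
  field_simp
  ring

end Pool.Agent.Lib.RieszAnnulus
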