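import Mathlib
import Pool.Agent.Lib.RieszAnnulus.Resolvent

set_option autoImplicit false

/-!
# The regularised logarithmic potential
-/

namespace Pool.Agent.Lib.RieszAnnulus

open MeasureTheory Set Filter Topology
open scoped ENNReal Real

/-- `b(θ) = √((R²+r²)/2 + (R²-r²)/2 cos θ)`, a parametrisation of `[r, R]`. -/
noncomputable def bb (r R θ : ℝ) : ℝ :=
  √((R ^ 2 + r ^ 2) / 2 + (R ^ 2 - r ^ 2) / 2 * Real.cos θ)

section
variable {r R l : ℝ}

lemma bb_arg_ge (hr : 0 < r) (hrR : r < R) (θ : ℝ) :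
    r ^ 2 ≤ (R ^ 2 + r ^ 2) / 2 + (R ^ 2 - r ^ 2) / 2 * Real.cos θ := by
  have h1 : 0 ≤ R ^ 2 - r ^ 2 := by nlinarith
  nlinarith [mul_nonneg h1 (by linarith [Real.neg_one_le_cos θ] : 0 ≤ 1 + Real.cos θ)]

lemma bb_arg_le (hr : 0 < r) (hrR : r < R) (θ : ℝ) :
    (R ^ 2 + r ^ 2) / 2 + (R ^ 2 - r ^ 2) / 2 * Real.cos θ ≤ R ^ 2 := by
  have h1 : 0 ≤ R ^ 2 - r ^ 2 := by nlinarith
  nlinarith [mul_nonneg h1 (by linarith [Real.cos_le_one θ] : 0 ≤ 1 - Real.cos θ)]

lemma bb_sq (hr : 0 < r) (hrR : r < R) (θ : ℝ) :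
    bb r R θ ^ 2 = (R ^ 2 + r ^ 2) / 2 + (R ^ 2 - r ^ 2) / 2 * Real.cos θ :=
  Real.sq_sqrt ((sq_nonneg r).trans (bb_arg_ge hr hrR θ))

lemma bb_ge (hr : 0 < r) (hrR : r < R) (θ : ℝ) : r ≤ bb r R θ :=
  Real.le_sqrt_of_sq_le (bb_arg_ge hr hrR θ)

lemma bb_le (hr : 0 < r) (hrR : r < R) (θ : ℝ) : bb r R θ ≤ R :=
  Real.sqrt_le_iff.2 ⟨(hr.trans hrR).le, bb_arg_le hr hrR θ⟩

lemma bb_pos (hr : 0 < r) (hrR : r < R) (θ : ℝ) : 0 < bb r R θ := hr.trans_le (bb_ge hr hrR θ)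

lemma bb_cont : Continuous (bb r R) := by unfold bb; fun_prop

/-- The regularised potential. -/
noncomputable def Lam (r R l y a : ℝ) : ℝ :=
  ∫ θ in (0 : ℝ)..π, (bb r R θ ^ 2 - l) / (2 * bb r R θ) *
    (Real.log (((a + bb r R θ) ^ 2 + y ^ 2) / ((a - bb r R θ) ^ 2 + y ^ 2)) / 2)

/-- the kernel of the derivative -/
noncomputable def kk (b y x : ℝ) : ℝ := (x + b) / ((x + b) ^ 2 + y ^ 2) - (x - b) / ((x - b) ^ 2 + y ^ 2)

lemma log_eq_integral {y : ℝ} (hy : 0 < y) (b a : ℝ) :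
    Real.log (((a + b) ^ 2 + y ^ 2) / ((a - b) ^ 2 + y ^ 2)) / 2 = ∫ x in (0 : ℝ)..a, kk b y x := by
  have hd : ∀ x : ℝ, HasDerivAt
      (fun x : ℝ => (Real.log ((x + b) ^ 2 + y ^ 2) - Real.log ((x - b) ^ 2 + y ^ 2)) / 2)
      (kk b y x) x := by
    intro x
    have h1 : 0 < (x + b) ^ 2 + y ^ 2 := by positivity
    have h2 : 0 < (x - b) ^ 2 + y ^ 2 := by positivity
    have e1 : HasDerivAt (fun x : ℝ => (x + b) ^ 2 + y ^ 2) (2 * (x + b)) x := by
      have := (((hasDerivAt_id x).add_const b).pow 2).add_const (y ^ 2)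
      simpa using this
    have e2 : HasDerivAt (fun x : ℝ => (x - b) ^ 2 + y ^ 2) (2 * (x - b)) x := by
      have := (((hasDerivAt_id x).sub_const b).pow 2).add_const (y ^ 2)
      simpa using this
    have := ((e1.log h1.ne').sub (e2.log h2.ne')).div_const 2
    convert! this using 1
    unfold kk
    field_simp
  have hc : Continuous (kk b y) := by
    unfold kk
    refine Continuous.sub ?_ ?_
    · exact Continuous.div (by fun_prop) (by fun_prop) fun x => by positivity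
    · exact Continuous.div (by fun_prop) (by fun_prop) fun x => by positivity
  rw [intervalIntegral.integral_eq_sub_of_hasDerivAt (fun x _ => hd x)
    (hc.intervalIntegrable _ _)]
  have h1 : 0 < (a + b) ^ 2 + y ^ 2 := by positivity
  have h2 : 0 < (a - b) ^ 2 + y ^ 2 := by positivity
  rw [Real.log_div h1.ne' h2.ne']
  have : (0 - b) ^ 2 = (0 + b) ^ 2 := by ring
  rw [this]
  ring

/-- the complex form of the derivative -/
noncomputable def GG (r R l y x : ℝ) : ℝ :=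
  ((π : ℂ) + (((x : ℂ) + y * Complex.I) ^ 2 - l) *
    S ((R ^ 2 + r ^ 2) / 2) ((R ^ 2 - r ^ 2) / 2) (((x : ℂ) + y * Complex.I) ^ 2)).re

lemma sq_ne_real {x y : ℝ} (hx : 0 < x) (hy : 0 < y) (t : ℝ) :
    ((x : ℂ) + y * Complex.I) ^ 2 ≠ t := by
  intro h
  have := congrArg Complex.im h
  simp [pow_two] at this
  nlinarith

lemma inner_eq (hr : 0 < r) (hrR : r < R) {x y : ℝ} (hx : 0 < x) (hy : 0 < y) :
    ∫ θ in (0 : ℝ)..π, (bb r R θ ^ 2 - l) / (2 * bb r R θ) * kk (bb r R θ) y x =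
      GG r R l y x := by
  set z : ℂ := (x : ℂ) + y * Complex.I with hz
  have hne : ∀ θ : ℝ, ((bb r R θ ^ 2 : ℝ) : ℂ) - z ^ 2 ≠ 0 := by
    intro θ h
    exact sq_ne_real hx hy (bb r R θ ^ 2) (by rw [← hz]; linear_combination -h)
  have h1 : ∀ θ : ℝ, (bb r R θ ^ 2 - l) / (2 * bb r R θ) * kk (bb r R θ) y x =
      (1 + (z ^ 2 - l) * (1 / ((((R ^ 2 + r ^ 2) / 2 : ℝ) : ℂ) +
        (((R ^ 2 - r ^ 2) / 2 : ℝ) : ℂ) * Real.cos θ - z ^ 2))).re := by
    intro θ
    set b := bb r R θ with hb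
    have hb0 : 0 < b := bb_pos hr hrR θ
    have e0 : (((R ^ 2 + r ^ 2) / 2 : ℝ) : ℂ) +
        (((R ^ 2 - r ^ 2) / 2 : ℝ) : ℂ) * Real.cos θ = ((b ^ 2 : ℝ) : ℂ) := by
      rw [hb, bb_sq hr hrR]; push_cast; ring
    rw [e0]
    have hne' := hne θ
    rw [← hb] at hne'
    have hzb1 : z + b ≠ 0 := by
      intro h
      apply hne'
      push_cast
      linear_combination ((b : ℂ) - z) * h
    have hzb2 : z - b ≠ 0 := by
      intro h
      apply hne'
      push_cast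
      linear_combination (-(b : ℂ) - z) * h
    have hbC : (b : ℂ) ≠ 0 := by exact_mod_cast hb0.ne'
    have e1 : (1 : ℂ) + (z ^ 2 - l) * (1 / (((b ^ 2 : ℝ) : ℂ) - z ^ 2)) =
        (((b ^ 2 - l) / (2 * b) : ℝ) : ℂ) * (1 / (z + b) - 1 / (z - b)) := by
      have hne2 : (b : ℂ) ^ 2 - z ^ 2 ≠ 0 := by
        have := hne'
        push_cast at this
        exact this
      push_cast
      have e2 : (b : ℂ) ^ 2 - z ^ 2 = -((z + b) * (z - b)) := by ring
      rw [e2]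
      field_simp
      ring
    rw [e1, Complex.re_ofReal_mul, Complex.sub_re]
    congr 1
    unfold kk
    have e3 : ∀ c : ℝ, (1 / (z + c)).re = (x + c) / ((x + c) ^ 2 + y ^ 2) := by
      intro c
      rw [one_div, Complex.inv_re, Complex.normSq_apply]
      simp [hz]
      ring
    have e4 := e3 (-b)
    push_cast at e4
    rw [e3 b, sub_eq_add_neg z, e4]
    ring
  simp_rw [h1]
  have hcont : Continuous fun θ : ℝ => 1 / ((((R ^ 2 + r ^ 2) / 2 : ℝ) : ℂ) +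
        (((R ^ 2 - r ^ 2) / 2 : ℝ) : ℂ) * Real.cos θ - z ^ 2) := by
    refine continuous_const.div (by fun_prop) fun θ h => ?_
    apply hne θ
    rw [bb_sq hr hrR]
    push_cast
    push_cast at h
    linear_combination h
  have h2 : ∫ θ in (0 : ℝ)..π, (1 + (z ^ 2 - l) * (1 / ((((R ^ 2 + r ^ 2) / 2 : ℝ) : ℂ) +
        (((R ^ 2 - r ^ 2) / 2 : ℝ) : ℂ) * Real.cos θ - z ^ 2))) =
      (π : ℂ) + (z ^ 2 - l) * S ((R ^ 2 + r ^ 2) / 2) ((R ^ 2 - r ^ 2) / 2) (z ^ 2) := by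
    rw [intervalIntegral.integral_add (continuous_const.intervalIntegrable _ _)
      ((hcont.const_mul _).intervalIntegrable _ _), intervalIntegral.integral_const_mul]
    simp [S]
  have h3 := (Complex.reCLM).intervalIntegral_comp_comm (μ := volume) (a := 0) (b := π)
    (f := fun θ : ℝ => (1 + (z ^ 2 - l) * (1 / ((((R ^ 2 + r ^ 2) / 2 : ℝ) : ℂ) +
        (((R ^ 2 - r ^ 2) / 2 : ℝ) : ℂ) * Real.cos θ - z ^ 2))))
    ((continuous_const.add (hcont.const_mul _)).intervalIntegrable _ _)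
  simp only [Complex.reCLM_apply] at h3
  rw [h3, h2]
  rfl

lemma Lam_eq (hr : 0 < r) (hrR : r < R) {y a : ℝ} (hy : 0 < y) (ha : 0 ≤ a) :
    Lam r R l y a = ∫ x in (0 : ℝ)..a, GG r R l y x := by
  unfold Lam
  have h1 : ∀ θ : ℝ, (bb r R θ ^ 2 - l) / (2 * bb r R θ) *
      (Real.log (((a + bb r R θ) ^ 2 + y ^ 2) / ((a - bb r R θ) ^ 2 + y ^ 2)) / 2) =
      ∫ x in (0 : ℝ)..a, (bb r R θ ^ 2 - l) / (2 * bb r R θ) * kk (bb r R θ) y x := by
    intro θ
    rw [log_eq_integral hy, intervalIntegral.integral_const_mul]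
  simp_rw [h1]
  rw [intervalIntegral_intervalIntegral_swap]
  · refine intervalIntegral.integral_congr_ae (Eventually.of_forall fun x hx => ?_)
    rw [uIoc_of_le ha] at hx
    exact inner_eq hr hrR hx.1 hy
  · refine IntegrableOn.mono_set ?_ (t := uIcc (0 : ℝ) π ×ˢ uIcc (0 : ℝ) a) ?_
    · refine ContinuousOn.integrableOn_compact (isCompact_uIcc.prod isCompact_uIcc) ?_
      apply Continuous.continuousOn
      have hb : Continuous (bb r R) := bb_cont
      have hb0 : ∀ θ, bb r R θ ≠ 0 := fun θ => (bb_pos hr hrR θ).ne'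
      unfold Function.uncurry kk
      refine Continuous.mul ?_ (Continuous.sub ?_ ?_)
      · exact Continuous.div (by fun_prop) (by fun_prop) fun p => by simpa using hb0 _
      · exact Continuous.div (by fun_prop) (by fun_prop) fun p => by positivity
      · exact Continuous.div (by fun_prop) (by fun_prop) fun p => by positivity
    · exact prod_mono uIoc_subset_uIcc uIoc_subset_uIcc

end

end Pool.Agent.Lib.RieszAnnulus
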