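import Mathlib
import Pool.Agent.Lib.RieszAnnulus.Reg

set_option autoImplicit false

/-!
# The logarithmic potential on the interval `[r, R]`
-/

namespace Pool.Agent.Lib.RieszAnnulus

open MeasureTheory Set Filter Topology
open scoped ENNReal Real

section
variable {r R l : ℝ}

/-- basic identity for the resolvent in terms of `z` -/
lemma S_sq' (hr : 0 < r) (hrR : r < R) {x y : ℝ} (hx : 0 < x) (hy : 0 < y) :
    S ((R ^ 2 + r ^ 2) / 2) ((R ^ 2 - r ^ 2) / 2) (((x : ℂ) + y * Complex.I) ^ 2) ^ 2 *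
      ((((x : ℂ) + y * Complex.I) ^ 2 - (r : ℂ) ^ 2) *
        (((x : ℂ) + y * Complex.I) ^ 2 - (R : ℂ) ^ 2)) = (π : ℂ) ^ 2 := by
  rw [← S_sq (m := (R ^ 2 + r ^ 2) / 2) (h := (R ^ 2 - r ^ 2) / 2) (by nlinarith)
    (ζ := ((x : ℂ) + y * Complex.I) ^ 2) (fun t _ => sq_ne_real hx hy t)]
  push_cast
  ring

lemma S_norm_le (hr : 0 < r) (hrR : r < R) {x y : ℝ} (hx : 0 < x) (hy : 0 < y)
    (hxr : x ≠ r) (hxR : x ≠ R) :
    ‖S ((R ^ 2 + r ^ 2) / 2) ((R ^ 2 - r ^ 2) / 2) (((x : ℂ) + y * Complex.I) ^ 2)‖ ≤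
      π / √(r * R * (|x - r| * |x - R|)) := by
  have hR : 0 < R := hr.trans hrR
  set z : ℂ := (x : ℂ) + y * Complex.I with hz
  set s := S ((R ^ 2 + r ^ 2) / 2) ((R ^ 2 - r ^ 2) / 2) (z ^ 2) with hs
  have h := S_sq' hr hrR hx hy
  rw [← hz, ← hs] at h
  have h1 : ‖s‖ ^ 2 * ((‖z - r‖ * ‖z + r‖) * (‖z - R‖ * ‖z + R‖)) = π ^ 2 := by
    have := congrArg norm h
    rw [show s ^ 2 * ((z ^ 2 - (r : ℂ) ^ 2) * (z ^ 2 - (R : ℂ) ^ 2)) =
      s ^ 2 * (((z - r) * (z + r)) * ((z - R) * (z + R))) by ring] at this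
    simp only [norm_mul, norm_pow, Complex.norm_real, Real.norm_eq_abs] at this
    rw [this, sq_abs]
  have hre : ∀ c : ℝ, |x + c| ≤ ‖z + c‖ := by
    intro c
    have := Complex.abs_re_le_norm (z + c)
    simpa [hz] using this
  have h2 : |x - r| ≤ ‖z - r‖ := by
    have := hre (-r)
    push_cast at this
    simpa [sub_eq_add_neg] using this
  have h3 : |x - R| ≤ ‖z - R‖ := by
    have := hre (-R)
    push_cast at this
    simpa [sub_eq_add_neg] using this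
  have h4 : r ≤ ‖z + r‖ := by
    refine le_trans ?_ ((le_abs_self _).trans (hre r)); linarith
  have h5 : R ≤ ‖z + R‖ := by
    refine le_trans ?_ ((le_abs_self _).trans (hre R)); linarith
  have h6 : 0 < |x - r| := abs_pos.2 (sub_ne_zero.2 hxr)
  have h7 : 0 < |x - R| := abs_pos.2 (sub_ne_zero.2 hxR)
  have h8 : ‖s‖ ^ 2 * (r * R * (|x - r| * |x - R|)) ≤ π ^ 2 := by
    rw [← h1]
    refine mul_le_mul_of_nonneg_left ?_ (by positivity)
    calc r * R * (|x - r| * |x - R|) = (|x - r| * r) * (|x - R| * R) := by ring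
      _ ≤ _ := by gcongr
  rw [le_div_iff₀ (Real.sqrt_pos.2 (by positivity))]
  refine le_of_sq_le_sq ?_ Real.pi_pos.le
  rw [mul_pow, Real.sq_sqrt (by positivity)]
  exact h8

lemma GG_bound (hr : 0 < r) (hrR : r < R) {x y : ℝ} (hx : 0 < x) (hxR : x < R) (hxr : x ≠ r)
    (hy : 0 < y) (hy1 : y ≤ 1) :
    ‖GG r R l y x‖ ≤ π + (R ^ 2 + 1 + |l|) * (π / √(r * R * (|x - r| * |x - R|))) := by
  unfold GG
  have hS := S_norm_le hr hrR hx hy hxr hxR.ne
  set z : ℂ := (x : ℂ) + y * Complex.I with hz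
  rw [Real.norm_eq_abs]
  refine (Complex.abs_re_le_norm _).trans ?_
  refine (norm_add_le _ _).trans ?_
  have h1 : ‖(π : ℂ)‖ = π := by
    rw [Complex.norm_real, Real.norm_eq_abs, abs_of_pos Real.pi_pos]
  rw [h1, norm_mul]
  have h2 : ‖z ^ 2 - (l : ℂ)‖ ≤ R ^ 2 + 1 + |l| := by
    refine (norm_sub_le _ _).trans ?_
    rw [Complex.norm_real, Real.norm_eq_abs, norm_pow]
    have h3 : ‖z‖ ^ 2 = x ^ 2 + y ^ 2 := by
      rw [← Complex.normSq_eq_norm_sq, Complex.normSq_apply]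
      simp [hz]; ring
    rw [h3]
    nlinarith
  gcongr

/-- the limit function -/
noncomputable def glim (r R l x : ℝ) : ℝ :=
  π + (Ioo 0 r).indicator (fun x => π * ((x ^ 2 - l) / √((r ^ 2 - x ^ 2) * (R ^ 2 - x ^ 2)))) x

lemma tendsto_z2 (x : ℝ) :
    Tendsto (fun y : ℝ => ((x : ℂ) + y * Complex.I) ^ 2) (𝓝[>] 0) (𝓝 ((x : ℂ) ^ 2)) := by
  have : Continuous fun y : ℝ => ((x : ℂ) + y * Complex.I) ^ 2 := by fun_prop
  have h := this.tendsto 0
  simp only [Complex.ofReal_zero, zero_mul, add_zero] at h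
  exact h.mono_left nhdsWithin_le_nhds

lemma S_sq_tendsto (hr : 0 < r) (hrR : r < R) {x : ℝ} (hx : 0 < x) (hxr : x ≠ r) (hxR : x ≠ R) :
    Tendsto (fun y : ℝ => S ((R ^ 2 + r ^ 2) / 2) ((R ^ 2 - r ^ 2) / 2)
      (((x : ℂ) + y * Complex.I) ^ 2) ^ 2) (𝓝[>] 0)
      (𝓝 ((π : ℂ) ^ 2 / (((x : ℂ) ^ 2 - (r : ℂ) ^ 2) * ((x : ℂ) ^ 2 - (R : ℂ) ^ 2)))) := by
  have hR : 0 < R := hr.trans hrR
  have hne1 : (x : ℂ) ^ 2 - (r : ℂ) ^ 2 ≠ 0 := by
    intro h
    have h' : x ^ 2 - r ^ 2 = 0 := by exact_mod_cast h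
    apply hxr
    nlinarith
  have hne2 : (x : ℂ) ^ 2 - (R : ℂ) ^ 2 ≠ 0 := by
    intro h
    have h' : x ^ 2 - R ^ 2 = 0 := by exact_mod_cast h
    apply hxR
    nlinarith
  have h1 : Tendsto (fun y : ℝ => (π : ℂ) ^ 2 / ((((x : ℂ) + y * Complex.I) ^ 2 - (r : ℂ) ^ 2) *
        (((x : ℂ) + y * Complex.I) ^ 2 - (R : ℂ) ^ 2))) (𝓝[>] 0)
      (𝓝 ((π : ℂ) ^ 2 / (((x : ℂ) ^ 2 - (r : ℂ) ^ 2) * ((x : ℂ) ^ 2 - (R : ℂ) ^ 2)))) := by
    refine Tendsto.div tendsto_const_nhds ?_ (mul_ne_zero hne1 hne2)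
    exact ((tendsto_z2 x).sub tendsto_const_nhds).mul ((tendsto_z2 x).sub tendsto_const_nhds)
  refine h1.congr' ?_
  filter_upwards [self_mem_nhdsWithin] with y hy
  have hy0 : 0 < y := hy
  have h := S_sq' hr hrR hx hy0
  have hne3 : ((x : ℂ) + y * Complex.I) ^ 2 - (r : ℂ) ^ 2 ≠ 0 := by
    intro h0
    exact sq_ne_real hx hy0 (r ^ 2) (by push_cast; linear_combination h0)
  have hne4 : ((x : ℂ) + y * Complex.I) ^ 2 - (R : ℂ) ^ 2 ≠ 0 := by
    intro h0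
    exact sq_ne_real hx hy0 (R ^ 2) (by push_cast; linear_combination h0)
  rw [← h]
  field_simp

/-- `Re S > 0` to the left of the cut. -/
lemma S_re_nonneg (hr : 0 < r) (hrR : r < R) {ζ : ℂ} (hζ : ζ.re < r ^ 2) :
    0 ≤ (S ((R ^ 2 + r ^ 2) / 2) ((R ^ 2 - r ^ 2) / 2) ζ).re := by
  have hd : ∀ θ : ℝ, 0 < (((((R ^ 2 + r ^ 2) / 2 : ℝ) : ℂ) +
        (((R ^ 2 - r ^ 2) / 2 : ℝ) : ℂ) * Real.cos θ - ζ)).re := by
    intro θ
    have := bb_arg_ge hr hrR θ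
    have e : (((((R ^ 2 + r ^ 2) / 2 : ℝ) : ℂ) +
        (((R ^ 2 - r ^ 2) / 2 : ℝ) : ℂ) * Real.cos θ - ζ)).re =
        (R ^ 2 + r ^ 2) / 2 + (R ^ 2 - r ^ 2) / 2 * Real.cos θ - ζ.re := by
      rw [← Complex.ofReal_mul, ← Complex.ofReal_add, Complex.sub_re, Complex.ofReal_re]
    rw [e]; linarith
  have hcont : Continuous fun θ : ℝ => 1 / ((((R ^ 2 + r ^ 2) / 2 : ℝ) : ℂ) +
        (((R ^ 2 - r ^ 2) / 2 : ℝ) : ℂ) * Real.cos θ - ζ) := by
    refine continuous_const.div (by fun_prop) fun θ h => ?_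
    have := hd θ
    rw [h] at this
    simp at this
  have h3 := (Complex.reCLM).intervalIntegral_comp_comm (μ := volume) (a := 0) (b := π)
    (f := fun θ : ℝ => 1 / ((((R ^ 2 + r ^ 2) / 2 : ℝ) : ℂ) +
        (((R ^ 2 - r ^ 2) / 2 : ℝ) : ℂ) * Real.cos θ - ζ))
    (hcont.intervalIntegrable _ _)
  simp only [Complex.reCLM_apply] at h3
  unfold S
  rw [← h3]
  refine intervalIntegral.integral_nonneg Real.pi_pos.le fun θ _ => ?_
  rw [one_div, Complex.inv_re]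
  exact div_nonneg (hd θ).le (Complex.normSq_nonneg _)

lemma S_tendsto_left (hr : 0 < r) (hrR : r < R) {x : ℝ} (hx : 0 < x) (hxr : x < r) :
    Tendsto (fun y : ℝ => S ((R ^ 2 + r ^ 2) / 2) ((R ^ 2 - r ^ 2) / 2)
      (((x : ℂ) + y * Complex.I) ^ 2)) (𝓝[>] 0)
      (𝓝 ((π / √((r ^ 2 - x ^ 2) * (R ^ 2 - x ^ 2)) : ℝ) : ℂ)) := by
  have hR : 0 < R := hr.trans hrR
  set c : ℝ := π / √((r ^ 2 - x ^ 2) * (R ^ 2 - x ^ 2)) with hc
  have h1 : 0 < r ^ 2 - x ^ 2 := by nlinarith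
  have h2 : 0 < R ^ 2 - x ^ 2 := by nlinarith
  have hc0 : 0 < c := by positivity
  have hc2 : (π : ℂ) ^ 2 / (((x : ℂ) ^ 2 - (r : ℂ) ^ 2) * ((x : ℂ) ^ 2 - (R : ℂ) ^ 2)) =
      (c : ℂ) ^ 2 := by
    have : c ^ 2 = π ^ 2 / ((x ^ 2 - r ^ 2) * (x ^ 2 - R ^ 2)) := by
      rw [hc, div_pow, Real.sq_sqrt (by positivity)]
      congr 1
      ring
    rw [← Complex.ofReal_pow c 2, this]
    push_cast
    rfl
  have h3 := S_sq_tendsto hr hrR hx hxr.ne (hxr.trans hrR).ne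
  rw [hc2] at h3
  rw [tendsto_iff_norm_sub_tendsto_zero] at h3 ⊢
  have h4 := h3.div_const c
  rw [zero_div] at h4
  refine squeeze_zero' (Eventually.of_forall fun _ => norm_nonneg _) ?_ h4
  filter_upwards [self_mem_nhdsWithin] with y hy
  have hy0 : 0 < y := hy
  set s := S ((R ^ 2 + r ^ 2) / 2) ((R ^ 2 - r ^ 2) / 2) (((x : ℂ) + y * Complex.I) ^ 2) with hs
  have hre : 0 ≤ s.re := by
    refine S_re_nonneg hr hrR ?_
    simp [pow_two]
    nlinarith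
  have h5 : c ≤ ‖s + c‖ := by
    refine le_trans ?_ ((le_abs_self _).trans (Complex.abs_re_le_norm (s + c)))
    simp [hre]
  rw [le_div_iff₀ hc0, show s ^ 2 - (c : ℂ) ^ 2 = (s - c) * (s + c) by ring, norm_mul]
  gcongr

lemma GG_tendsto (hr : 0 < r) (hrR : r < R) {x : ℝ} (hx : 0 < x) (hxr : x ≠ r) (hxR : x < R) :
    Tendsto (fun y : ℝ => GG r R l y x) (𝓝[>] 0) (𝓝 (glim r R l x)) := by
  have hR : 0 < R := hr.trans hrR
  rcases lt_or_gt_of_ne hxr with h | h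
  · have h1 := S_tendsto_left hr hrR hx h
    have h2 : Tendsto (fun y : ℝ => ((π : ℂ) + (((x : ℂ) + y * Complex.I) ^ 2 - l) *
        S ((R ^ 2 + r ^ 2) / 2) ((R ^ 2 - r ^ 2) / 2) (((x : ℂ) + y * Complex.I) ^ 2)))
        (𝓝[>] 0) (𝓝 ((π : ℂ) + ((x : ℂ) ^ 2 - l) *
          ((π / √((r ^ 2 - x ^ 2) * (R ^ 2 - x ^ 2)) : ℝ) : ℂ))) :=
      tendsto_const_nhds.add (((tendsto_z2 x).sub tendsto_const_nhds).mul h1)
    have h3 := (Complex.continuous_re.tendsto _).comp h2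
    have h4 : ((π : ℂ) + ((x : ℂ) ^ 2 - l) *
          ((π / √((r ^ 2 - x ^ 2) * (R ^ 2 - x ^ 2)) : ℝ) : ℂ)).re = glim r R l x := by
      unfold glim
      rw [indicator_of_mem (show x ∈ Ioo 0 r from ⟨hx, h⟩)]
      rw [show (π : ℂ) + ((x : ℂ) ^ 2 - l) *
          ((π / √((r ^ 2 - x ^ 2) * (R ^ 2 - x ^ 2)) : ℝ) : ℂ) =
          ((π + (x ^ 2 - l) * (π / √((r ^ 2 - x ^ 2) * (R ^ 2 - x ^ 2))) : ℝ) : ℂ) by
            push_cast; ring, Complex.ofReal_re]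
      ring
    rw [← h4]
    exact h3
  · have hg : glim r R l x = π := by
      unfold glim
      rw [indicator_of_notMem (fun hh => by have := hh.2; linarith)]
      ring
    rw [hg]
    have h1 := S_sq_tendsto hr hrR hx hxr hxR.ne
    set F : ℝ → ℂ := fun y => S ((R ^ 2 + r ^ 2) / 2) ((R ^ 2 - r ^ 2) / 2)
      (((x : ℂ) + y * Complex.I) ^ 2) with hF
    set c : ℝ := π / √((x ^ 2 - r ^ 2) * (R ^ 2 - x ^ 2)) with hc
    have h2 : 0 < x ^ 2 - r ^ 2 := by nlinarith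
    have h3 : 0 < R ^ 2 - x ^ 2 := by nlinarith
    have hc2 : (π : ℂ) ^ 2 / (((x : ℂ) ^ 2 - (r : ℂ) ^ 2) * ((x : ℂ) ^ 2 - (R : ℂ) ^ 2)) =
        -(c : ℂ) ^ 2 := by
      have : c ^ 2 = -(π ^ 2 / ((x ^ 2 - r ^ 2) * (x ^ 2 - R ^ 2))) := by
        rw [hc, div_pow, Real.sq_sqrt (by positivity), ← div_neg]
        congr 1
        ring
      rw [← Complex.ofReal_pow c 2, this]
      push_cast
      ring
    change Tendsto (fun y : ℝ => F y ^ 2) _ _ at h1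
    rw [hc2] at h1
    -- the real part tends to zero
    have h4 : Tendsto (fun y => (F y).re) (𝓝[>] 0) (𝓝 0) := by
      rw [tendsto_iff_norm_sub_tendsto_zero] at h1
      have h5 : Tendsto (fun y => √(‖F y ^ 2 - -(c : ℂ) ^ 2‖)) (𝓝[>] 0) (𝓝 0) := by
        have := (Real.continuous_sqrt.tendsto 0).comp h1
        simpa [Function.comp_def] using this
      refine squeeze_zero_norm (fun y => ?_) h5
      rw [Real.norm_eq_abs]
      refine Real.le_sqrt_of_sq_le ?_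
      have e : F y ^ 2 - -(c : ℂ) ^ 2 = (F y - c * Complex.I) * (F y + c * Complex.I) := by
        linear_combination ((c : ℂ) ^ 2) * Complex.I_sq
      rw [e, norm_mul, pow_two]
      have e1 := Complex.abs_re_le_norm (F y - c * Complex.I)
      have e2 := Complex.abs_re_le_norm (F y + c * Complex.I)
      simp at e1 e2
      gcongr
    have hb : ∀ᶠ y : ℝ in 𝓝[>] 0, ‖F y‖ ≤ π / √(r * R * (|x - r| * |x - R|)) := by
      filter_upwards [self_mem_nhdsWithin] with y hy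
      exact S_norm_le hr hrR hx hy hxr hxR.ne
    have h5 : ∀ y : ℝ, GG r R l y x = π + ((x ^ 2 - y ^ 2 - l) * (F y).re - 2 * x * y * (F y).im) := by
      intro y
      unfold GG
      rw [Complex.add_re, Complex.mul_re, Complex.ofReal_re]
      have e1 : (((x : ℂ) + y * Complex.I) ^ 2 - l).re = x ^ 2 - y ^ 2 - l := by
        simp [pow_two]
      have e2 : (((x : ℂ) + y * Complex.I) ^ 2 - l).im = 2 * x * y := by
        simp [pow_two]; ring
      rw [e1, e2]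
    simp_rw [h5]
    have h6 : Tendsto (fun y : ℝ => (x ^ 2 - y ^ 2 - l) * (F y).re) (𝓝[>] 0) (𝓝 0) := by
      have : Tendsto (fun y : ℝ => x ^ 2 - y ^ 2 - l) (𝓝[>] 0) (𝓝 (x ^ 2 - 0 ^ 2 - l)) :=
        ((by fun_prop : Continuous fun y : ℝ => x ^ 2 - y ^ 2 - l).tendsto 0).mono_left
          nhdsWithin_le_nhds
      simpa using this.mul h4
    have h7 : Tendsto (fun y : ℝ => 2 * x * y * (F y).im) (𝓝[>] 0) (𝓝 0) := by
      have e1 : Tendsto (fun y : ℝ => |2 * x * y| * (π / √(r * R * (|x - r| * |x - R|))))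
          (𝓝[>] 0) (𝓝 (|2 * x * 0| * (π / √(r * R * (|x - r| * |x - R|))))) :=
        ((by fun_prop : Continuous fun y : ℝ =>
          |2 * x * y| * (π / √(r * R * (|x - r| * |x - R|)))).tendsto 0).mono_left
          nhdsWithin_le_nhds
      simp only [mul_zero, abs_zero, zero_mul] at e1
      refine squeeze_zero_norm' ?_ e1
      filter_upwards [hb] with y hy
      rw [norm_mul, Real.norm_eq_abs, Real.norm_eq_abs]
      gcongr
      exact (Complex.abs_im_le_norm _).trans hy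
    have := (tendsto_const_nhds (x := π)).add (h6.sub h7)
    simpa using this

end

end Pool.Agent.Lib.RieszAnnulus
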