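import Mathlib
import Pool.Agent.Lib.RieszAnnulus.LogPot

set_option autoImplicit false

/-!
# The logarithmic potential on the interval `[r, R]`, continued
-/

namespace Pool.Agent.Lib.RieszAnnulus

open MeasureTheory Set Filter Topology
open scoped ENNReal Real

section
variable {r R l : ℝ}

lemma intervalIntegrable_one_div_sqrt (a b : ℝ) :
    IntervalIntegrable (fun x : ℝ => 1 / √x) volume a b := by
  have h : IntervalIntegrable (fun x : ℝ => x ^ (-(1 / 2) : ℝ)) volume a b :=
    intervalIntegral.intervalIntegrable_rpow' (by norm_num)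
  refine h.congr fun x _ => ?_
  rcases le_total 0 x with hx | hx
  · rw [Real.sqrt_eq_rpow, Real.rpow_neg hx]
    simp
  · rw [Real.sqrt_eq_zero_of_nonpos hx]
    rcases hx.eq_or_lt with h0 | h0
    · rw [h0, Real.zero_rpow (by norm_num)]; simp
    · rw [Real.rpow_def_of_neg h0]
      have : Real.cos (-(1 / 2) * π) = 0 := by
        rw [show -(1 / 2) * π = -(π / 2) by ring, Real.cos_neg, Real.cos_pi_div_two]
      rw [this]; simp

/-- the dominating function -/
noncomputable def bnd (r R x : ℝ) : ℝ := 1 / √(x - r) + 1 / √(r - x) + 1 / √(R - x)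

lemma bnd_int (a b : ℝ) : IntervalIntegrable (bnd r R) volume a b := by
  have h1 : IntervalIntegrable (fun x : ℝ => 1 / √(x - r)) volume a b := by
    have := (intervalIntegrable_one_div_sqrt (a - r) (b - r)).comp_sub_right r
    simpa using this
  have h2 : ∀ c : ℝ, IntervalIntegrable (fun x : ℝ => 1 / √(c - x)) volume a b := by
    intro c
    have := (intervalIntegrable_one_div_sqrt (c - a) (c - b)).comp_sub_left c
    simpa using this
  exact (h1.add (h2 r)).add (h2 R)

lemma le_bnd (hrR : r < R) {x : ℝ} (hxr : x ≠ r) (hxR : x < R) :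
    1 / √(|x - r| * |x - R|) ≤ 1 / √((R - r) / 2) * bnd r R x := by
  have h0 : |x - R| = R - x := by rw [abs_sub_comm, abs_of_pos]; linarith
  have h1 : 1 / √|x - r| = 1 / √(x - r) + 1 / √(r - x) := by
    rcases lt_or_gt_of_ne hxr with h | h
    · rw [abs_of_neg (by linarith), Real.sqrt_eq_zero_of_nonpos (by linarith : x - r ≤ 0)]
      simp
    · rw [abs_of_pos (by linarith), Real.sqrt_eq_zero_of_nonpos (by linarith : r - x ≤ 0)]
      simp
  have h2 : 0 < |x - r| := abs_pos.2 (sub_ne_zero.2 hxr)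
  have h3 : 0 < R - x := by linarith
  have h4 : 0 < (R - r) / 2 := by linarith
  rw [bnd, ← h1, h0, Real.sqrt_mul h2.le]
  have h5 : 0 < √|x - r| := Real.sqrt_pos.2 h2
  have h6 : 0 < √(R - x) := Real.sqrt_pos.2 h3
  have h7 : 0 < √((R - r) / 2) := Real.sqrt_pos.2 h4
  have key : 1 / (√|x - r| * √(R - x)) ≤ (1 / √|x - r| + 1 / √(R - x)) / √((R - r) / 2) := by
    rcases le_total ((R - r) / 2) (R - x) with h | h
    · have h8 : √((R - r) / 2) ≤ √(R - x) := Real.sqrt_le_sqrt h
      calc 1 / (√|x - r| * √(R - x)) ≤ 1 / (√|x - r| * √((R - r) / 2)) := by gcongr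
        _ = (1 / √|x - r|) / √((R - r) / 2) := by rw [div_div]
        _ ≤ _ := by
          gcongr
          have : 0 ≤ 1 / √(R - x) := by positivity
          linarith
    · have h9 : (R - r) / 2 ≤ |x - r| := by
        refine le_trans ?_ (le_abs_self _)
        linarith
      have h8 : √((R - r) / 2) ≤ √|x - r| := Real.sqrt_le_sqrt h9
      calc 1 / (√|x - r| * √(R - x)) ≤ 1 / (√((R - r) / 2) * √(R - x)) := by gcongr
        _ = (1 / √(R - x)) / √((R - r) / 2) := by rw [div_div, mul_comm]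
        _ ≤ _ := by
          gcongr
          have : 0 ≤ 1 / √|x - r| := by positivity
          linarith
  rw [one_div_mul_eq_div]
  exact key

/-- the density whose integral vanishes -/
noncomputable def FF (r R l x : ℝ) : ℝ := (x ^ 2 - l) / √((r ^ 2 - x ^ 2) * (R ^ 2 - x ^ 2))

lemma image_sin (hr : 0 < r) : (fun u : ℝ => r * Real.sin u) '' Ioo 0 (π / 2) = Ioo 0 r := by
  ext x
  constructor
  · rintro ⟨u, hu, rfl⟩
    have h1 : 0 < Real.sin u := Real.sin_pos_of_pos_of_lt_pi hu.1 (by linarith [hu.2, Real.pi_pos])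
    have h2 : Real.sin u < 1 := by
      have := Real.sin_lt_sin_of_lt_of_le_pi_div_two (x := u) (y := π / 2)
        (by linarith [hu.1, Real.pi_pos]) le_rfl hu.2
      rwa [Real.sin_pi_div_two] at this
    exact ⟨by positivity, by nlinarith⟩
  · rintro ⟨h0, h1⟩
    have hx1 : x / r < 1 := (div_lt_one hr).2 h1
    have hx0 : 0 < x / r := by positivity
    refine ⟨Real.arcsin (x / r), ⟨Real.arcsin_pos.2 hx0, Real.arcsin_lt_pi_div_two.2 hx1⟩, ?_⟩
    simp only
    rw [Real.sin_arcsin (by linarith) hx1.le]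
    field_simp

lemma FF_subst (hr : 0 < r) {u : ℝ} (hu : u ∈ Ioo 0 (π / 2)) :
    |r * Real.cos u| • FF r R l (r * Real.sin u) =
      (r ^ 2 * Real.sin u ^ 2 - l) / √(R ^ 2 - r ^ 2 * Real.sin u ^ 2) := by
  have h1 : 0 < Real.cos u :=
    Real.cos_pos_of_mem_Ioo ⟨by linarith [hu.1, Real.pi_pos], by linarith [hu.2]⟩
  have h2 : r ^ 2 - (r * Real.sin u) ^ 2 = (r * Real.cos u) ^ 2 := by
    have := Real.sin_sq_add_cos_sq u
    nlinarith
  unfold FF
  rw [h2, Real.sqrt_mul (by positivity), Real.sqrt_sq (by positivity), abs_of_pos (by positivity),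
    smul_eq_mul, mul_pow]
  field_simp

lemma FF_cont (hr : 0 < r) (hrR : r < R) : Continuous fun u : ℝ =>
    (r ^ 2 * Real.sin u ^ 2 - l) / √(R ^ 2 - r ^ 2 * Real.sin u ^ 2) := by
  refine Continuous.div (by fun_prop) (by fun_prop) fun u => ?_
  refine (Real.sqrt_pos.2 ?_).ne'
  have := Real.sin_sq_le_one u
  nlinarith [sq_nonneg (Real.sin u)]

lemma sin_deriv_injOn (hr : 0 < r) :
    (∀ u ∈ Ioo 0 (π / 2), HasDerivWithinAt (fun u : ℝ => r * Real.sin u) (r * Real.cos u)
      (Ioo 0 (π / 2)) u) ∧ InjOn (fun u : ℝ => r * Real.sin u) (Ioo 0 (π / 2)) := by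
  constructor
  · intro u _
    exact ((Real.hasDerivAt_sin u).const_mul r).hasDerivWithinAt
  · intro u hu v hv h
    simp only at h
    have h' := mul_left_cancel₀ hr.ne' h
    exact Real.injOn_sin ⟨by linarith [hu.1, Real.pi_pos], hu.2.le⟩
      ⟨by linarith [hv.1, Real.pi_pos], hv.2.le⟩ h'

lemma FF_integrableOn (hr : 0 < r) (hrR : r < R) : IntegrableOn (FF r R l) (Ioo 0 r) := by
  rw [← image_sin hr]
  obtain ⟨h1, h2⟩ := sin_deriv_injOn hr
  rw [integrableOn_image_iff_integrableOn_abs_deriv_smul measurableSet_Ioo h1 h2]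
  have : IntegrableOn (fun u : ℝ =>
      (r ^ 2 * Real.sin u ^ 2 - l) / √(R ^ 2 - r ^ 2 * Real.sin u ^ 2)) (Ioo 0 (π / 2)) :=
    ((FF_cont hr hrR).integrableOn_Icc (a := 0) (b := π / 2)).mono_set Ioo_subset_Icc_self
  refine this.congr_fun (fun u hu => ?_) measurableSet_Ioo
  exact (FF_subst hr hu).symm

lemma FF_integral (hr : 0 < r) (hrR : r < R)
    (hl : ∫ u in (0 : ℝ)..π / 2, (r ^ 2 * Real.sin u ^ 2 - l) / √(R ^ 2 - r ^ 2 * Real.sin u ^ 2)
      = 0) : ∫ x in Ioo 0 r, FF r R l x = 0 := by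
  obtain ⟨h1, h2⟩ := sin_deriv_injOn hr
  rw [← image_sin hr, integral_image_eq_integral_abs_deriv_smul measurableSet_Ioo h1 h2]
  rw [setIntegral_congr_fun measurableSet_Ioo (fun u hu => FF_subst hr hu)]
  rw [intervalIntegral.integral_of_le (by positivity), integral_Ioc_eq_integral_Ioo] at hl
  exact hl

lemma glim_integral (hr : 0 < r) (hrR : r < R) {a : ℝ} (har : r ≤ a)
    (hl : ∫ u in (0 : ℝ)..π / 2, (r ^ 2 * Real.sin u ^ 2 - l) / √(R ^ 2 - r ^ 2 * Real.sin u ^ 2)
      = 0) : ∫ x in (0 : ℝ)..a, glim r R l x = π * a := by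
  have ha : 0 ≤ a := hr.le.trans har
  rw [intervalIntegral.integral_of_le ha]
  unfold glim
  have h1 : Integrable ((Ioo 0 r).indicator (fun x => π * FF r R l x)) := by
    rw [integrable_indicator_iff measurableSet_Ioo]
    exact (FF_integrableOn hr hrR).const_mul π
  have h2 : ∫ x in Ioc 0 a, (Ioo 0 r).indicator (fun x => π * FF r R l x) x = 0 := by
    rw [setIntegral_indicator measurableSet_Ioo]
    have : Ioc 0 a ∩ Ioo 0 r = Ioo 0 r := by
      ext x
      simp only [mem_inter_iff, mem_Ioc, mem_Ioo]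
      constructor
      · rintro ⟨_, h⟩; exact h
      · rintro ⟨h0, h1⟩; exact ⟨⟨h0, by linarith⟩, h0, h1⟩
    rw [this, integral_const_mul, FF_integral hr hrR hl, mul_zero]
  change ∫ x in Ioc 0 a, (π + (Ioo 0 r).indicator (fun x => π * FF r R l x) x) = π * a
  have h3 : IntegrableOn (fun _ : ℝ => π) (Ioc 0 a) := integrableOn_const (by simp)
  have h4 : ∫ x in Ioc 0 a, (π + (Ioo 0 r).indicator (fun x => π * FF r R l x) x) =
      (∫ x in Ioc 0 a, π) + ∫ x in Ioc 0 a, (Ioo 0 r).indicator (fun x => π * FF r R l x) x :=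
    integral_add h3 h1.integrableOn
  rw [h4, h2, add_zero]
  simp [ha]
  ring

lemma GG_meas (r R l y a : ℝ) (hr : 0 < r) (hrR : r < R) (hy : 0 < y) (ha : 0 ≤ a) :
    AEStronglyMeasurable (GG r R l y) (volume.restrict (uIoc 0 a)) := by
  have hb : Continuous (bb r R) := bb_cont
  have hb0 : ∀ θ, bb r R θ ≠ 0 := fun θ => (bb_pos hr hrR θ).ne'
  have h1 : Continuous fun x : ℝ =>
      ∫ θ in (0 : ℝ)..π, (bb r R θ ^ 2 - l) / (2 * bb r R θ) * kk (bb r R θ) y x := by
    apply intervalIntegral.continuous_parametric_intervalIntegral_of_continuous'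
    unfold Function.uncurry kk
    refine Continuous.mul ?_ (Continuous.sub ?_ ?_)
    · exact Continuous.div (by fun_prop) (by fun_prop) fun p => by simpa using hb0 _
    · exact Continuous.div (by fun_prop) (by fun_prop) fun p => by positivity
    · exact Continuous.div (by fun_prop) (by fun_prop) fun p => by positivity
  refine h1.aestronglyMeasurable.congr ?_
  rw [uIoc_of_le ha]
  filter_upwards [ae_restrict_mem measurableSet_Ioc] with x hx
  exact inner_eq hr hrR hx.1 hy

theorem Lam_tendsto (hr : 0 < r) (hrR : r < R) {a : ℝ} (har : r ≤ a) (haR : a ≤ R)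
    (hl : ∫ u in (0 : ℝ)..π / 2, (r ^ 2 * Real.sin u ^ 2 - l) / √(R ^ 2 - r ^ 2 * Real.sin u ^ 2)
      = 0) : Tendsto (fun y => Lam r R l y a) (𝓝[>] 0) (𝓝 (π * a)) := by
  have hR : 0 < R := hr.trans hrR
  have ha : 0 ≤ a := hr.le.trans har
  rw [← glim_integral hr hrR har hl]
  have h1 : Tendsto (fun y => ∫ x in (0 : ℝ)..a, GG r R l y x) (𝓝[>] 0)
      (𝓝 (∫ x in (0 : ℝ)..a, glim r R l x)) := by
    refine intervalIntegral.tendsto_integral_filter_of_dominated_convergence
      (fun x => π + (R ^ 2 + 1 + |l|) * (π / √(r * R)) * (1 / √((R - r) / 2) * bnd r R x))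
      ?_ ?_ ?_ ?_
    · filter_upwards [self_mem_nhdsWithin] with y hy
      exact GG_meas r R l y a hr hrR hy ha
    · have h01 : ∀ᶠ y : ℝ in 𝓝[>] 0, y ≤ 1 := by
        have : Ioc (0 : ℝ) 1 ∈ 𝓝[>] (0 : ℝ) := Ioc_mem_nhdsGT one_pos
        filter_upwards [this] with y hy using hy.2
      filter_upwards [self_mem_nhdsWithin, h01] with y hy hy1
      have hR0 : ∀ᵐ x : ℝ, x ≠ R := by simp [ae_iff, measure_singleton]
      have hr0 : ∀ᵐ x : ℝ, x ≠ r := by simp [ae_iff, measure_singleton]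
      filter_upwards [hR0, hr0] with x hxR hxr hx
      rw [uIoc_of_le ha] at hx
      have hxR' : x < R := lt_of_le_of_ne (hx.2.trans haR) hxR
      refine (GG_bound hr hrR hx.1 hxR' hxr hy hy1).trans ?_
      have h2 := le_bnd hrR hxr hxR'
      have h3 : π / √(r * R * (|x - r| * |x - R|)) =
          (π / √(r * R)) * (1 / √(|x - r| * |x - R|)) := by
        rw [Real.sqrt_mul (by positivity)]
        field_simp
      rw [h3]
      have h4 : 0 ≤ π / √(r * R) := by positivity
      have h5 : 0 ≤ R ^ 2 + 1 + |l| := by positivity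
      calc π + (R ^ 2 + 1 + |l|) * (π / √(r * R) * (1 / √(|x - r| * |x - R|))) =
          π + (R ^ 2 + 1 + |l|) * (π / √(r * R)) * (1 / √(|x - r| * |x - R|)) := by ring
        _ ≤ _ := by gcongr
    · exact (intervalIntegrable_const).add (((bnd_int 0 a).const_mul _).const_mul _)
    · have hR0 : ∀ᵐ x : ℝ, x ≠ R := by simp [ae_iff, measure_singleton]
      have hr0 : ∀ᵐ x : ℝ, x ≠ r := by simp [ae_iff, measure_singleton]
      filter_upwards [hR0, hr0] with x hxR hxr hx
      rw [uIoc_of_le ha] at hx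
      have hxR' : x < R := lt_of_le_of_ne (hx.2.trans haR) hxR
      exact GG_tendsto hr hrR hx.1 hxr hxR'
  refine h1.congr' ?_
  filter_upwards [self_mem_nhdsWithin] with y hy
  exact (Lam_eq hr hrR hy ha).symm

lemma bb_injOn (hr : 0 < r) (hrR : r < R) : InjOn (bb r R) (Icc 0 π) := by
  intro u hu v hv h
  have h1 := bb_sq hr hrR u
  have h2 := bb_sq hr hrR v
  rw [h] at h1
  have h3 : 0 < R ^ 2 - r ^ 2 := by nlinarith
  have h4 : Real.cos u = Real.cos v := by
    have : (R ^ 2 - r ^ 2) * Real.cos u = (R ^ 2 - r ^ 2) * Real.cos v := by linarith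
    exact mul_left_cancel₀ h3.ne' this
  exact Real.injOn_cos hu hv h4

theorem log_potential (hr : 0 < r) (hrR : r < R) {a : ℝ} (har : r ≤ a) (haR : a ≤ R)
    (hlr : l ≤ r ^ 2)
    (hl : ∫ u in (0 : ℝ)..π / 2, (r ^ 2 * Real.sin u ^ 2 - l) / √(R ^ 2 - r ^ 2 * Real.sin u ^ 2)
      = 0) :
    ∫⁻ θ in Ioo 0 π, ENNReal.ofReal ((bb r R θ ^ 2 - l) / (2 * bb r R θ) *
      Real.log ((a + bb r R θ) / |a - bb r R θ|)) = ENNReal.ofReal (π * a) := by
  have ha : 0 < a := hr.trans_le har
  set yn : ℕ → ℝ := fun n => 1 / ((n : ℝ) + 1) with hyn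
  have hy0 : ∀ n, 0 < yn n := fun n => by positivity
  have hytend : Tendsto yn atTop (𝓝[>] 0) := by
    rw [tendsto_nhdsWithin_iff]
    exact ⟨tendsto_one_div_add_atTop_nhds_zero_nat, Eventually.of_forall fun n => hy0 n⟩
  have hyanti : Antitone yn := by
    intro m n hmn
    simp only [hyn]
    have : (m : ℝ) ≤ n := by exact_mod_cast hmn
    gcongr
  -- the weights
  have hw0 : ∀ θ, 0 ≤ (bb r R θ ^ 2 - l) / (2 * bb r R θ) := by
    intro θ
    have h1 := bb_ge hr hrR θ
    have h2 := bb_pos hr hrR θ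
    apply div_nonneg _ (by positivity)
    nlinarith
  set f : ℕ → ℝ → ℝ := fun n θ => (bb r R θ ^ 2 - l) / (2 * bb r R θ) *
    (Real.log (((a + bb r R θ) ^ 2 + yn n ^ 2) / ((a - bb r R θ) ^ 2 + yn n ^ 2)) / 2) with hf
  have hfc : ∀ n, Continuous (f n) := by
    intro n
    have hb : Continuous (bb r R) := bb_cont
    have hb0 : ∀ θ, bb r R θ ≠ 0 := fun θ => (bb_pos hr hrR θ).ne'
    have hyp := hy0 n
    refine Continuous.mul ?_ (Continuous.div_const ?_ 2)
    · exact Continuous.div (by fun_prop) (by fun_prop) fun p => by simpa using hb0 _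
    · refine Continuous.log ?_ ?_
      · exact Continuous.div (by fun_prop) (by fun_prop) fun p => by positivity
      · intro θ
        positivity
  have hfn : ∀ n θ, 0 ≤ f n θ := by
    intro n θ
    have hyp := hy0 n
    have hb := bb_pos hr hrR θ
    refine mul_nonneg (hw0 θ) ?_
    apply div_nonneg _ (by norm_num)
    apply Real.log_nonneg
    rw [le_div_iff₀ (by positivity)]
    nlinarith [mul_pos ha hb]
  have hmono : ∀ᵐ θ ∂(volume.restrict (Ioo 0 π)), Monotone fun n => ENNReal.ofReal (f n θ) := by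
    refine Eventually.of_forall fun θ m n hmn => ENNReal.ofReal_le_ofReal ?_
    have hb := bb_pos hr hrR θ
    refine mul_le_mul_of_nonneg_left ?_ (hw0 θ)
    have h1 := hy0 m
    have h2 := hy0 n
    have h3 := hyanti hmn
    have h4 : yn n ^ 2 ≤ yn m ^ 2 := by gcongr
    have h5 : (a - bb r R θ) ^ 2 ≤ (a + bb r R θ) ^ 2 := by nlinarith [mul_pos ha hb]
    gcongr Real.log ?_ / 2
    rw [div_le_div_iff₀ (by positivity) (by positivity)]
    nlinarith [mul_nonneg (sub_nonneg.2 h4) (sub_nonneg.2 h5)]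
  have hlim : ∀ᵐ θ ∂(volume.restrict (Ioo 0 π)), Tendsto (fun n => ENNReal.ofReal (f n θ)) atTop
      (𝓝 (ENNReal.ofReal ((bb r R θ ^ 2 - l) / (2 * bb r R θ) *
      Real.log ((a + bb r R θ) / |a - bb r R θ|)))) := by
    have hne : ∀ᵐ θ ∂(volume.restrict (Ioo 0 π)), bb r R θ ≠ a := by
      rw [ae_restrict_iff' measurableSet_Ioo]
      have hsub : {θ : ℝ | θ ∈ Ioo 0 π ∧ bb r R θ = a}.Subsingleton := by
        intro u hu v hv
        exact bb_injOn hr hrR (Ioo_subset_Icc_self hu.1) (Ioo_subset_Icc_self hv.1)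
          (hu.2.trans hv.2.symm)
      have h0 : volume {θ : ℝ | θ ∈ Ioo 0 π ∧ bb r R θ = a} = 0 := hsub.measure_zero _
      rw [ae_iff]
      refine measure_mono_null (fun θ hθ => ?_) h0
      simp only [mem_ofPred_eq, Classical.not_imp, not_not] at hθ ⊢
      exact hθ
    filter_upwards [hne] with θ hθ
    have hb := bb_pos hr hrR θ
    have hab : 0 < |a - bb r R θ| := abs_pos.2 (sub_ne_zero.2 (Ne.symm hθ))
    have h1 : Real.log ((a + bb r R θ) / |a - bb r R θ|) =
        Real.log (((a + bb r R θ) ^ 2 + 0 ^ 2) / ((a - bb r R θ) ^ 2 + 0 ^ 2)) / 2 := by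
      have e : ((a + bb r R θ) ^ 2 + 0 ^ 2) / ((a - bb r R θ) ^ 2 + 0 ^ 2) =
          ((a + bb r R θ) / |a - bb r R θ|) ^ 2 := by
        rw [div_pow, sq_abs]; simp
      rw [e, Real.log_pow]
      push_cast
      ring
    rw [h1]
    have h2 : ContinuousAt (fun y : ℝ => ENNReal.ofReal ((bb r R θ ^ 2 - l) / (2 * bb r R θ) *
        (Real.log (((a + bb r R θ) ^ 2 + y ^ 2) / ((a - bb r R θ) ^ 2 + y ^ 2)) / 2))) 0 := by
      refine ENNReal.continuous_ofReal.continuousAt.comp ?_
      refine continuousAt_const.mul (ContinuousAt.div_const ?_ 2)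
      have hd : (a - bb r R θ) ^ 2 + 0 ^ 2 ≠ 0 := by
        have : a - bb r R θ ≠ 0 := sub_ne_zero.2 (Ne.symm hθ)
        positivity
      refine ContinuousAt.log (ContinuousAt.div (by fun_prop) (by fun_prop) hd) ?_
      have : (a + bb r R θ) ^ 2 + 0 ^ 2 ≠ 0 := by positivity
      exact div_ne_zero this hd
    exact h2.tendsto.comp (tendsto_nhdsWithin_iff.1 hytend).1
  have hT := lintegral_tendsto_of_tendsto_of_monotone
    (fun n => ((hfc n).measurable.ennreal_ofReal).aemeasurable) hmono hlim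
  have hI : ∀ n, ∫⁻ θ in Ioo 0 π, ENNReal.ofReal (f n θ) = ENNReal.ofReal (Lam r R l (yn n) a) := by
    intro n
    rw [← ofReal_integral_eq_lintegral_ofReal]
    · unfold Lam
      rw [intervalIntegral.integral_of_le Real.pi_pos.le, integral_Ioc_eq_integral_Ioo]
    · exact ((hfc n).integrableOn_Icc (a := 0) (b := π)).mono_set Ioo_subset_Icc_self
    · exact Eventually.of_forall fun θ => hfn n θ
  simp_rw [hI] at hT
  have hT2 : Tendsto (fun n => ENNReal.ofReal (Lam r R l (yn n) a)) atTop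
      (𝓝 (ENNReal.ofReal (π * a))) :=
    (ENNReal.continuous_ofReal.tendsto _).comp ((Lam_tendsto hr hrR har haR hl).comp hytend)
  exact tendsto_nhds_unique hT hT2

end

end Pool.Agent.Lib.RieszAnnulus
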