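import Mathlib
import Pool.Agent.Lib.RieszAnnulus.Defs
import Pool.Agent.Lib.RieszAnnulus.Lam
import Pool.Agent.Lib.RieszAnnulus.LogPot2
import Pool.Agent.Lib.RieszAnnulus.Kernel3D

set_option autoImplicit false

/-!
# Mass and potential of the explicit measure
-/

namespace Pool.Agent.Lib.RieszAnnulus

open MeasureTheory Set Filter Topology
open scoped ENNReal Real

section
variable {r R : ℝ}

/-- radial integration in `ℝ³` -/
theorem radial_lintegral {f : ℝ → ℝ≥0∞} (hf : Measurable f) :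
    ∫⁻ y : E3, f ‖y‖ = ∫⁻ b in Ioi (0 : ℝ), f b * ENNReal.ofReal (4 * π * b ^ 2) := by
  set g : E3 → ℝ≥0∞ := fun y => f ‖y‖ with hg
  have hgm : Measurable g := hf.comp measurable_norm
  rw [lintegral_E3 hgm]
  have h2 : ∀ (u : ℝ) (p : ℝ × ℝ), g (WithLp.toLp 2 ![u, p.1, p.2]) =
      f (√(u ^ 2 + (p.1 ^ 2 + p.2 ^ 2))) := by
    intro u p
    simp only [hg]
    congr 1
    rw [EuclideanSpace.norm_eq]
    congr 1
    simp [Fin.sum_univ_three]
    ring
  simp_rw [h2]
  have h3 : ∀ u : ℝ, ∫⁻ p : ℝ × ℝ, f (√(u ^ 2 + (p.1 ^ 2 + p.2 ^ 2))) =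
      ∫⁻ ρ in Ioi (0 : ℝ), ENNReal.ofReal (2 * π * ρ) * f (√(u ^ 2 + ρ ^ 2)) := by
    intro u
    exact polar_radial (h := fun t => f (√(u ^ 2 + t))) (hf.comp (by fun_prop))
  simp_rw [h3]
  rw [polar_half (Q := fun q => ENNReal.ofReal (2 * π * q.2) * f (√(q.1 ^ 2 + q.2 ^ 2)))]
  · refine setLIntegral_congr_fun measurableSet_Ioi fun b hb => ?_
    have hb0 : (0 : ℝ) < b := hb
    have e1 : ∀ θ : ℝ, (b * Real.cos θ) ^ 2 + (b * Real.sin θ) ^ 2 = b ^ 2 := by
      intro θ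
      linear_combination (b ^ 2) * Real.sin_sq_add_cos_sq θ
    simp only [e1, Real.sqrt_sq hb0.le]
    have e3 : ∀ θ ∈ Ioo 0 π, ENNReal.ofReal b * (ENNReal.ofReal (2 * π * (b * Real.sin θ)) * f b) =
        (f b * ENNReal.ofReal (2 * π * b ^ 2)) * ENNReal.ofReal (Real.sin θ) := by
      intro θ hθ
      have hs : 0 < Real.sin θ := Real.sin_pos_of_pos_of_lt_pi hθ.1 hθ.2
      rw [show 2 * π * (b * Real.sin θ) = (2 * π * b) * Real.sin θ by ring,
        ENNReal.ofReal_mul (show 0 ≤ 2 * π * b by positivity),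
        show 2 * π * b ^ 2 = b * (2 * π * b) by ring, ENNReal.ofReal_mul hb0.le]
      ring
    rw [setLIntegral_congr_fun measurableSet_Ioo e3, lintegral_const_mul]
    · have e4 : ∫⁻ θ in Ioo 0 π, ENNReal.ofReal (Real.sin θ) = ENNReal.ofReal 2 := by
        rw [← ofReal_integral_eq_lintegral_ofReal]
        · congr 1
          rw [← integral_Ioc_eq_integral_Ioo, ← intervalIntegral.integral_of_le Real.pi_pos.le,
            integral_sin]
          norm_num
        · exact (Real.continuous_sin.integrableOn_Icc (a := 0) (b := π)).mono_set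
            Ioo_subset_Icc_self
        · filter_upwards [ae_restrict_mem measurableSet_Ioo] with θ hθ
          exact (Real.sin_pos_of_pos_of_lt_pi hθ.1 hθ.2).le
      rw [e4, mul_assoc, ← ENNReal.ofReal_mul (by positivity)]
      congr 2
      ring
    · exact Real.continuous_sin.measurable.ennreal_ofReal
  · refine Measurable.mul (Measurable.ennreal_ofReal (by fun_prop)) ?_
    exact hf.comp (by fun_prop)

/-- image and derivative of the parametrisation `bb` -/
lemma bb_image (hr : 0 < r) (hrR : r < R) : bb r R '' Ioo 0 π = Ioo r R := by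
  have h0 : 0 < R ^ 2 - r ^ 2 := by nlinarith
  ext b
  constructor
  · rintro ⟨θ, hθ, rfl⟩
    have hsq := bb_sq hr hrR θ
    have hp := bb_pos hr hrR θ
    have hc1 : Real.cos θ < 1 := by
      have := Real.strictAntiOn_cos (a := 0) (b := θ) ⟨le_rfl, Real.pi_pos.le⟩
        ⟨hθ.1.le, hθ.2.le⟩ hθ.1
      rwa [Real.cos_zero] at this
    have hc2 : -1 < Real.cos θ := by
      have := Real.strictAntiOn_cos (a := θ) (b := π) ⟨hθ.1.le, hθ.2.le⟩
        ⟨Real.pi_pos.le, le_rfl⟩ hθ.2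
      rwa [Real.cos_pi] at this
    constructor
    · have : r ^ 2 < bb r R θ ^ 2 := by rw [hsq]; nlinarith
      exact lt_of_pow_lt_pow_left₀ 2 hp.le this
    · have : bb r R θ ^ 2 < R ^ 2 := by rw [hsq]; nlinarith
      exact lt_of_pow_lt_pow_left₀ 2 (hr.trans hrR).le this
  · rintro ⟨h1, h2⟩
    have hb0 : 0 < b := hr.trans h1
    set c := (b ^ 2 - (R ^ 2 + r ^ 2) / 2) / ((R ^ 2 - r ^ 2) / 2) with hc
    have hc1 : -1 < c := by
      rw [hc, lt_div_iff₀ (by positivity)]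
      nlinarith
    have hc2 : c < 1 := by
      rw [hc, div_lt_iff₀ (by positivity)]
      nlinarith
    refine ⟨Real.arccos c, ⟨Real.arccos_pos.2 hc2, ?_⟩, ?_⟩
    · have := Real.arccos_lt_pi.2 hc1
      exact this
    · unfold bb
      rw [Real.cos_arccos hc1.le hc2.le, hc]
      have : (R ^ 2 + r ^ 2) / 2 + (R ^ 2 - r ^ 2) / 2 *
          ((b ^ 2 - (R ^ 2 + r ^ 2) / 2) / ((R ^ 2 - r ^ 2) / 2)) = b ^ 2 := by
        field_simp
        ring
      rw [this, Real.sqrt_sq hb0.le]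

lemma bb_deriv (hr : 0 < r) (hrR : r < R) (θ : ℝ) :
    HasDerivAt (bb r R) (-((R ^ 2 - r ^ 2) / 2 * Real.sin θ) / (2 * bb r R θ)) θ := by
  have h1 : HasDerivAt (fun θ => (R ^ 2 + r ^ 2) / 2 + (R ^ 2 - r ^ 2) / 2 * Real.cos θ)
      (-((R ^ 2 - r ^ 2) / 2 * Real.sin θ)) θ := by
    have := ((Real.hasDerivAt_cos θ).const_mul ((R ^ 2 - r ^ 2) / 2)).const_add
      ((R ^ 2 + r ^ 2) / 2)
    convert! this using 1
    ring
  have h2 : (R ^ 2 + r ^ 2) / 2 + (R ^ 2 - r ^ 2) / 2 * Real.cos θ ≠ 0 := by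
    have := bb_arg_ge hr hrR θ
    nlinarith
  exact h1.sqrt h2

/-- substitution `b = bb θ` -/
lemma bb_subst (hr : 0 < r) (hrR : r < R) (g : ℝ → ℝ≥0∞) :
    ∫⁻ b in Ioo r R, g b = ∫⁻ θ in Ioo 0 π,
      ENNReal.ofReal ((R ^ 2 - r ^ 2) / 2 * Real.sin θ / (2 * bb r R θ)) * g (bb r R θ) := by
  rw [← bb_image hr hrR, lintegral_image_eq_lintegral_abs_deriv_mul measurableSet_Ioo
    (fun θ _ => (bb_deriv hr hrR θ).hasDerivWithinAt)
    ((bb_injOn hr hrR).mono Ioo_subset_Icc_self)]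
  refine setLIntegral_congr_fun measurableSet_Ioo fun θ hθ => ?_
  have hs : 0 < Real.sin θ := Real.sin_pos_of_pos_of_lt_pi hθ.1 hθ.2
  have h0 : 0 < R ^ 2 - r ^ 2 := by nlinarith
  have hb := bb_pos hr hrR θ
  congr 2
  rw [neg_div, abs_neg, abs_of_pos (by positivity)]

lemma bb_root (hr : 0 < r) (hrR : r < R) {θ : ℝ} (hθ : θ ∈ Ioo 0 π) :
    √((R ^ 2 - bb r R θ ^ 2) * (bb r R θ ^ 2 - r ^ 2)) = (R ^ 2 - r ^ 2) / 2 * Real.sin θ := by
  have hs : 0 < Real.sin θ := Real.sin_pos_of_pos_of_lt_pi hθ.1 hθ.2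
  have h0 : 0 < R ^ 2 - r ^ 2 := by nlinarith
  rw [← Real.sqrt_sq (show 0 ≤ (R ^ 2 - r ^ 2) / 2 * Real.sin θ by positivity)]
  congr 1
  rw [bb_sq hr hrR]
  linear_combination -((R ^ 2 - r ^ 2) / 2) ^ 2 * Real.sin_sq_add_cos_sq θ

/-- the radial profile -/
noncomputable def prof (r R b : ℝ) : ℝ :=
  (Ioo r R).indicator (fun b => (b ^ 2 - lam r R) /
      (π ^ 2 * (R ^ 2 + r ^ 2 - 2 * lam r R) * b * √((R ^ 2 - b ^ 2) * (b ^ 2 - r ^ 2)))) b

lemma dens_eq (x : E3) : dens r R x = prof r R ‖x‖ := by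
  unfold dens prof
  by_cases h : r < ‖x‖ ∧ ‖x‖ < R
  · rw [indicator_of_mem (show x ∈ {x : E3 | r < ‖x‖ ∧ ‖x‖ < R} from h),
      indicator_of_mem (show ‖x‖ ∈ Ioo r R from h)]
  · rw [indicator_of_notMem (show x ∉ {x : E3 | r < ‖x‖ ∧ ‖x‖ < R} from h),
      indicator_of_notMem (show ‖x‖ ∉ Ioo r R from h)]

lemma prof_meas : Measurable (prof r R) := by
  unfold prof
  refine Measurable.indicator ?_ measurableSet_Ioo
  fun_prop

lemma prof_nonneg (hr : 0 < r) (hrR : r < R) (b : ℝ) : 0 ≤ prof r R b := by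
  unfold prof
  refine indicator_nonneg (fun b hb => ?_) b
  have h1 := lam_le hr hrR
  have h2 := mass_pos hr hrR
  have hb0 : 0 < b := hr.trans hb.1
  have hb1 := hb.1
  refine div_nonneg (by nlinarith) (by positivity)

lemma prof_bb (hr : 0 < r) (hrR : r < R) {θ : ℝ} (hθ : θ ∈ Ioo 0 π) :
    prof r R (bb r R θ) = (bb r R θ ^ 2 - lam r R) /
      (π ^ 2 * (R ^ 2 + r ^ 2 - 2 * lam r R) * bb r R θ * ((R ^ 2 - r ^ 2) / 2 * Real.sin θ)) := by
  unfold prof
  have : bb r R θ ∈ Ioo r R := by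
    rw [← bb_image hr hrR]
    exact mem_image_of_mem _ hθ
  rw [indicator_of_mem this, bb_root hr hrR hθ]

lemma prof_restrict (hr : 0 < r) (h : ℝ → ℝ≥0∞) :
    ∫⁻ b in Ioi (0 : ℝ), ENNReal.ofReal (prof r R b) * h b =
      ∫⁻ b in Ioo r R, ENNReal.ofReal (prof r R b) * h b := by
  rw [← lintegral_indicator measurableSet_Ioi, ← lintegral_indicator measurableSet_Ioo]
  refine lintegral_congr fun b => ?_
  by_cases hb : b ∈ Ioo r R
  · rw [indicator_of_mem (show b ∈ Ioi (0 : ℝ) from hr.trans hb.1), indicator_of_mem hb]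
  · rw [indicator_of_notMem hb]
    by_cases hb' : b ∈ Ioi (0 : ℝ)
    · rw [indicator_of_mem hb']
      unfold prof
      rw [indicator_of_notMem hb]
      simp
    · rw [indicator_of_notMem hb']

theorem mass_one (hr : 0 < r) (hrR : r < R) : ∫⁻ x : E3, ENNReal.ofReal (dens r R x) = 1 := by
  have hD := mass_pos hr hrR
  have h0 : 0 < R ^ 2 - r ^ 2 := by nlinarith
  have hlam := lam_le hr hrR
  simp_rw [dens_eq]
  rw [radial_lintegral (f := fun b => ENNReal.ofReal (prof r R b)) prof_meas.ennreal_ofReal,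
    prof_restrict hr, bb_subst hr hrR]
  have e : ∀ θ ∈ Ioo 0 π,
      ENNReal.ofReal ((R ^ 2 - r ^ 2) / 2 * Real.sin θ / (2 * bb r R θ)) *
        (ENNReal.ofReal (prof r R (bb r R θ)) * ENNReal.ofReal (4 * π * bb r R θ ^ 2)) =
      ENNReal.ofReal (2 * ((R ^ 2 + r ^ 2) / 2 + (R ^ 2 - r ^ 2) / 2 * Real.cos θ - lam r R) /
        (π * (R ^ 2 + r ^ 2 - 2 * lam r R))) := by
    intro θ hθ
    have hs : 0 < Real.sin θ := Real.sin_pos_of_pos_of_lt_pi hθ.1 hθ.2
    have hb := bb_pos hr hrR θ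
    rw [← ENNReal.ofReal_mul (prof_nonneg hr hrR _), ← ENNReal.ofReal_mul (by positivity)]
    congr 1
    rw [prof_bb hr hrR hθ, ← bb_sq hr hrR]
    field_simp
    ring
  rw [setLIntegral_congr_fun measurableSet_Ioo e, ← ofReal_integral_eq_lintegral_ofReal]
  · rw [← integral_Ioc_eq_integral_Ioo, ← intervalIntegral.integral_of_le Real.pi_pos.le,
      intervalIntegral.integral_div, intervalIntegral.integral_const_mul,
      intervalIntegral.integral_sub, intervalIntegral.integral_add,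
      intervalIntegral.integral_const_mul, integral_cos]
    · simp only [intervalIntegral.integral_const, sub_zero, smul_eq_mul, Real.sin_pi,
        Real.sin_zero]
      rw [show 2 * (π * ((R ^ 2 + r ^ 2) / 2) + (R ^ 2 - r ^ 2) / 2 * 0 - π * lam r R) /
        (π * (R ^ 2 + r ^ 2 - 2 * lam r R)) = 1 by
          rw [div_eq_one_iff_eq (by positivity)]; ring]
      simp
    · exact continuous_const.intervalIntegrable _ _
    · exact (by fun_prop : Continuous fun θ : ℝ => (R ^ 2 - r ^ 2) / 2 * Real.cos θ).intervalIntegrable _ _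
    · exact (by fun_prop : Continuous fun θ : ℝ =>
        (R ^ 2 + r ^ 2) / 2 + (R ^ 2 - r ^ 2) / 2 * Real.cos θ).intervalIntegrable _ _
    · exact continuous_const.intervalIntegrable _ _
  · exact ((by fun_prop : Continuous fun θ : ℝ =>
      2 * ((R ^ 2 + r ^ 2) / 2 + (R ^ 2 - r ^ 2) / 2 * Real.cos θ - lam r R) /
        (π * (R ^ 2 + r ^ 2 - 2 * lam r R))).integrableOn_Icc (a := 0) (b := π)).mono_set
        Ioo_subset_Icc_self
  · filter_upwards [ae_restrict_mem measurableSet_Ioo] with θ _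
    have := bb_arg_ge hr hrR θ
    exact div_nonneg (by linarith) (by positivity)

theorem potential (hr : 0 < r) (hrR : r < R) {x : E3} (hx : x ∈ annulus 3 r R) :
    ∫⁻ y, ENNReal.ofReal (dens r R y) * (ENNReal.ofReal (‖x - y‖ ^ 2))⁻¹ =
      ENNReal.ofReal (2 / (R ^ 2 + r ^ 2 - 2 * lam r R)) := by
  have hD := mass_pos hr hrR
  have h0 : 0 < R ^ 2 - r ^ 2 := by nlinarith
  have hlam := lam_le hr hrR
  obtain ⟨hx1, hx2⟩ := hx
  have hx0 : x ≠ 0 := by
    rintro rfl
    rw [norm_zero] at hx1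
    linarith
  simp_rw [dens_eq]
  rw [radial_potential (f := fun b => ENNReal.ofReal (prof r R b)) prof_meas.ennreal_ofReal hx0]
  set a := ‖x‖ with ha
  have ha0 : 0 < a := hr.trans_le hx1
  rw [prof_restrict hr, bb_subst hr hrR]
  have e : ∀ θ ∈ Ioo 0 π,
      ENNReal.ofReal ((R ^ 2 - r ^ 2) / 2 * Real.sin θ / (2 * bb r R θ)) *
        (ENNReal.ofReal (prof r R (bb r R θ)) *
          ENNReal.ofReal (2 * π * bb r R θ / a * Real.log ((a + bb r R θ) / |a - bb r R θ|))) =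
      ENNReal.ofReal (2 / (π * (R ^ 2 + r ^ 2 - 2 * lam r R) * a)) *
        ENNReal.ofReal ((bb r R θ ^ 2 - lam r R) / (2 * bb r R θ) *
          Real.log ((a + bb r R θ) / |a - bb r R θ|)) := by
    intro θ hθ
    have hs : 0 < Real.sin θ := Real.sin_pos_of_pos_of_lt_pi hθ.1 hθ.2
    have hb := bb_pos hr hrR θ
    rw [← ENNReal.ofReal_mul (prof_nonneg hr hrR _), ← ENNReal.ofReal_mul (by positivity),
      ← ENNReal.ofReal_mul (by positivity)]
    congr 1
    rw [prof_bb hr hrR hθ]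
    field_simp
  rw [setLIntegral_congr_fun measurableSet_Ioo e, lintegral_const_mul]
  · rw [log_potential hr hrR hx1 hx2 hlam (lam_spec hr hrR), ← ENNReal.ofReal_mul (by positivity)]
    congr 1
    field_simp
  · refine Measurable.ennreal_ofReal ?_
    have hb : Measurable (bb r R) := bb_cont.measurable
    have h1 : Measurable fun θ => (a + bb r R θ) / |a - bb r R θ| := by
      refine Measurable.div (by fun_prop) ?_
      exact (measurable_const.sub hb).abs
    exact Measurable.mul (by fun_prop) (Real.measurable_log.comp h1)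

end

end Pool.Agent.Lib.RieszAnnulus
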